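import Mathlib

/-!
# Cyclic orders: counting the arcs in an intersecting family
-/

namespace Pool.Agent.Lib.MP_6805b2_co.FR

/-- Among `m` cyclic arcs of length `n`, `2 n < m`, at most `n` are pairwise intersecting. -/
theorem arc_le (n m : ℕ) (hn : 1 ≤ n) (hm : 2 * n < m) (P : ℕ → Prop) [DecidablePred P]
    (hd : ∀ i j, n ≤ j → j + n ≤ m → P i → P (i + j) → False) :
    ((Finset.range m).filter P).card ≤ n := by
  rcases Finset.eq_empty_or_nonempty ((Finset.range m).filter P) with he | he
  · rw [he, Finset.card_empty]
    omega
  · set i0 := ((Finset.range m).filter P).min' he with hi0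
    have h0 := Finset.mem_filter.1 (Finset.min'_mem _ he)
    rw [← hi0, Finset.mem_range] at h0
    have key : ∀ i ∈ (Finset.range m).filter P, i0 ≤ i ∧ i < m ∧ P i ∧
        (i - i0 < n ∨ m < i - i0 + n) := by
      intro i hi
      have h1 : i0 ≤ i := Finset.min'_le _ i hi
      obtain ⟨h2, h3⟩ := Finset.mem_filter.1 hi
      rw [Finset.mem_range] at h2
      refine ⟨h1, h2, h3, ?_⟩
      by_contra hcon
      push Not at hcon
      refine hd i0 (i - i0) hcon.1 hcon.2 h0.2 ?_
      rwa [Nat.add_sub_cancel' h1]
    have h1 : ((Finset.range m).filter P).card ≤ (Finset.range n).card := by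
      refine Finset.card_le_card_of_injOn
        (fun i => if i - i0 < n then i - i0 else i - i0 + n - m) ?_ ?_
      · intro i hi
        obtain ⟨h1, h2, h3, h4⟩ := key i hi
        simp only [Finset.coe_range, Set.mem_Iio]
        split_ifs <;> omega
      · intro i hi j hj hij
        obtain ⟨h1, h2, h3, h4⟩ := key i hi
        obtain ⟨g1, g2, g3, g4⟩ := key j hj
        simp only at hij
        split_ifs at hij with a1 a2 a2
        · omega
        · exfalso
          refine hd i (m - n) (by omega) (by omega) h3 ?_
          have : i + (m - n) = j := by omega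
          rwa [this]
        · exfalso
          refine hd j (m - n) (by omega) (by omega) g3 ?_
          have : j + (m - n) = i := by omega
          rwa [this]
        · omega
    rwa [Finset.card_range] at h1

/-- The case of equality. -/
theorem arc_eq (n m : ℕ) (hn : 1 ≤ n) (hm : 2 * n < m) (P : ℕ → Prop) [DecidablePred P]
    (hd : ∀ i j, n ≤ j → j + n ≤ m → P i → P (i + j) → False)
    (h0 : P (n - 1)) (h1 : ¬ P n) (hc : n ≤ ((Finset.range m).filter P).card) :
    ∀ j, j < n → P j := by
  have key : ∀ i ∈ (Finset.range m).filter P, P i ∧ i < n + (n - 1) := by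
    intro i hi
    obtain ⟨h2, h3⟩ := Finset.mem_filter.1 hi
    rw [Finset.mem_range] at h2
    refine ⟨h3, ?_⟩
    by_contra hcon
    push Not at hcon
    refine hd (n - 1) (i - (n - 1)) (by omega) (by omega) h0 ?_
    have : n - 1 + (i - (n - 1)) = i := by omega
    rwa [this]
  have hsurj : ∀ j, j < n → P j ∨ P (j + n) := by
    intro j hj
    have h2 : Set.SurjOn (fun i => if i < n then i else i - n)
        ((Finset.range m).filter P : Finset ℕ) (Finset.range n : Finset ℕ) := by
      refine Finset.surjOn_of_injOn_of_card_le _ ?_ ?_ ?_
      · intro i hi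
        obtain ⟨g1, g2⟩ := key i hi
        simp only [Finset.coe_range, Set.mem_Iio]
        split_ifs <;> omega
      · intro i hi i' hi' hii
        obtain ⟨g1, g2⟩ := key i hi
        obtain ⟨g3, g4⟩ := key i' hi'
        simp only at hii
        split_ifs at hii with a1 a2 a2
        · exact hii
        · exfalso
          refine hd i n le_rfl (by omega) g1 ?_
          have : i + n = i' := by omega
          rwa [this]
        · exfalso
          refine hd i' n le_rfl (by omega) g3 ?_
          have : i' + n = i := by omega
          rwa [this]
        · omega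
      · rw [Finset.card_range]
        exact hc
    obtain ⟨i, hi, hij⟩ := h2 (Finset.mem_coe.2 (Finset.mem_range.2 hj))
    obtain ⟨g1, g2⟩ := key i hi
    simp only at hij
    split_ifs at hij with a1
    · left
      rwa [← hij]
    · right
      have : j + n = i := by omega
      rwa [this]
  intro j
  induction j with
  | zero =>
    intro _
    rcases hsurj 0 (by omega) with h | h
    · exact h
    · rw [Nat.zero_add] at h
      exact absurd h h1
  | succ j ih =>
    intro hj
    rcases hsurj (j + 1) hj with h | h
    · exact h
    · exfalso
      refine hd j (n + 1) (by omega) (by omega) (ih (by omega)) ?_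
      have : j + (n + 1) = j + 1 + n := by omega
      rwa [this]

end Pool.Agent.Lib.MP_6805b2_co.FR
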