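import Mathlib

/-!
# Exchanges in intersecting families without a centre
-/

namespace Pool.Agent.Lib.MP_6805b2_co.FR

open Finset

/-- A family closed under exchanges contains all `n`-subsets. By induction on `(Y \ X).card`. -/
theorem closed (V : Finset ℕ) (n : ℕ) (G : Finset (Finset ℕ))
    (hG : ∀ X ∈ G, X ⊆ V ∧ X.card = n)
    (hc : ∀ X ∈ G, ∀ a ∈ X, ∀ b ∈ V, b ∉ X → insert b (X.erase a) ∈ G) :
    ∀ d : ℕ, ∀ X ∈ G, ∀ Y, Y ⊆ V → Y.card = n → (Y \ X).card = d → Y ∈ G := by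
  intro d
  induction d with
  | zero =>
    intro X hX Y _ hYn hd
    have h1 : Y ⊆ X := by
      rw [Finset.card_eq_zero, Finset.sdiff_eq_empty_iff_subset] at hd
      exact hd
    have h2 : Y = X := Finset.eq_of_subset_of_card_le h1 (by rw [(hG X hX).2, hYn])
    rw [h2]
    exact hX
  | succ d ih =>
    intro X hX Y hYV hYn hd
    obtain ⟨hXV, hXn⟩ := hG X hX
    have hne : (Y \ X).Nonempty := by
      rw [← Finset.card_pos]
      omega
    obtain ⟨b, hb⟩ := hne
    have hne2 : (X \ Y).Nonempty := by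
      rw [← Finset.card_pos]
      have h1 := Finset.card_sdiff_add_card_inter X Y
      have h2 := Finset.card_sdiff_add_card_inter Y X
      rw [Finset.inter_comm Y X] at h2
      omega
    obtain ⟨a, ha⟩ := hne2
    rw [Finset.mem_sdiff] at ha hb
    refine ih (insert b (X.erase a)) (hc X hX a ha.1 b (hYV hb.1) hb.2) Y hYV hYn ?_
    have h3 : Y \ insert b (X.erase a) = (Y \ X).erase b := by
      ext x
      simp only [Finset.mem_sdiff, Finset.mem_insert, Finset.mem_erase, not_or, not_and, ne_eq]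
      constructor
      · rintro ⟨h4, h5, h6⟩
        refine ⟨h5, h4, fun h7 => h6 ?_ h7⟩
        rintro rfl
        exact ha.2 h4
      · rintro ⟨h4, h5, h6⟩
        exact ⟨h5, h4, fun _ => h6⟩
    rw [h3, Finset.card_erase_of_mem (Finset.mem_sdiff.2 hb), hd]
    rfl

/-- Proof: `G` is nonempty (`hns`, `V` nonempty). If `G` were closed under exchanges, it would contain all
`n`-subsets (`closed`), two of which are disjoint. So there are `A ∈ G`, `a ∈ A`, `b ∈ V \ A` with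
`insert b (A.erase a) ∉ G`. Take `X ∈ G` with `a ∉ X` (`hns a`) and `B` with `a ∈ B`,
`B ⊆ (V \ X).erase b`, `B.card = n` (`exists_subsuperset_card_eq`): `B` is disjoint from `X`, so `B ∉ G`. -/
theorem exch (V : Finset ℕ) (n : ℕ) (hn : 1 ≤ n) (hV : 2 * n < V.card) (G : Finset (Finset ℕ))
    (hG : ∀ X ∈ G, X ⊆ V ∧ X.card = n) (hI : ∀ X ∈ G, ∀ Y ∈ G, ¬ Disjoint X Y)
    (hns : ∀ x ∈ V, ∃ X ∈ G, x ∉ X) :
    ∃ A B : Finset ℕ, ∃ a b : ℕ, A ⊆ V ∧ A.card = n ∧ B ⊆ V ∧ B.card = n ∧ a ∈ A ∧ a ∈ B ∧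
      b ∈ V ∧ b ∉ A ∧ b ∉ B ∧ A ∈ G ∧ insert b (A.erase a) ∉ G ∧ B ∉ G := by
  have hVne : V.Nonempty := by
    rw [← Finset.card_pos]
    omega
  obtain ⟨x, hx⟩ := hVne
  obtain ⟨X0, hX0, -⟩ := hns x hx
  have h1 : ∃ A ∈ G, ∃ a ∈ A, ∃ b ∈ V, b ∉ A ∧ insert b (A.erase a) ∉ G := by
    by_contra hcon
    push Not at hcon
    have hcard : n ≤ (V \ X0).card := by
      rw [Finset.card_sdiff_of_subset (hG X0 hX0).1, (hG X0 hX0).2]
      omega
    obtain ⟨Y, hY, hYn⟩ := Finset.exists_subset_card_eq hcard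
    have hYV : Y ⊆ V := hY.trans Finset.sdiff_subset
    have hYG : Y ∈ G :=
      closed V n G hG (fun X hX a ha b hb hbX => hcon X hX a ha b hb hbX) _ X0 hX0 Y hYV hYn rfl
    refine hI X0 hX0 Y hYG ?_
    rw [Finset.disjoint_left]
    intro y hy hy2
    exact (Finset.mem_sdiff.1 (hY hy2)).2 hy
  obtain ⟨A, hA, a, haA, b, hbV, hbA, hins⟩ := h1
  have haV : a ∈ V := (hG A hA).1 haA
  obtain ⟨X, hX, haX⟩ := hns a haV
  have hab : a ≠ b := by
    rintro rfl
    exact hbA haA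
  have hs : ({a} : Finset ℕ) ⊆ (V \ X).erase b := by
    rw [Finset.singleton_subset_iff, Finset.mem_erase, Finset.mem_sdiff]
    exact ⟨hab, haV, haX⟩
  have hcard : n ≤ ((V \ X).erase b).card := by
    have h2 := Finset.pred_card_le_card_erase (s := V \ X) (a := b)
    rw [Finset.card_sdiff_of_subset (hG X hX).1, (hG X hX).2] at h2
    omega
  obtain ⟨B, haB, hBX, hBn⟩ := Finset.exists_subsuperset_card_eq hs
    (by rw [Finset.card_singleton]; exact hn) hcard
  have hBV : B ⊆ V := hBX.trans ((Finset.erase_subset _ _).trans Finset.sdiff_subset)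
  refine ⟨A, B, a, b, (hG A hA).1, (hG A hA).2, hBV, hBn, haA, Finset.singleton_subset_iff.1 haB,
    hbV, hbA, ?_, hA, hins, ?_⟩
  · intro hb
    exact (Finset.mem_erase.1 (hBX hb)).1 rfl
  · intro hBG
    refine hI X hX B hBG ?_
    rw [Finset.disjoint_left]
    intro y hy hy2
    exact (Finset.mem_sdiff.1 (Finset.mem_erase.1 (hBX hy2)).2).2 hy

end Pool.Agent.Lib.MP_6805b2_co.FR
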