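import Mathlib

/-!
# Cyclic orders with prescribed arcs
-/

namespace Pool.Agent.Lib.MP_6805b2_co.FR

/-- The cyclic arc of length `n` starting at the position `i` of the cyclic order `L`. -/
def arc (L : List ℕ) (n i : ℕ) : Finset ℕ := ((L.rotate i).take n).toFinset

private theorem arc_mid (X Y Z : List ℕ) (n i : ℕ) (hn : Y.length = n) (hi : X.length = i) :
    arc (X ++ (Y ++ Z)) n i = Y.toFinset := by
  subst hn
  subst hi
  unfold arc
  rw [List.rotate_append_length_eq, List.append_assoc, List.take_left]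

theorem arc_sub (L : List ℕ) (n i : ℕ) (hL : L.Nodup) (hn : n ≤ L.length) :
    arc L n i ⊆ L.toFinset ∧ (arc L n i).card = n := by
  have hr : (L.rotate i).Nodup := List.nodup_rotate.2 hL
  constructor
  · intro x hx
    unfold arc at hx
    rw [List.mem_toFinset] at hx ⊢
    exact List.mem_rotate.1 (List.mem_of_mem_take hx)
  · unfold arc
    rw [List.toFinset_card_of_nodup (hr.sublist (List.take_sublist _ _)), List.length_take, List.length_rotate]
    exact min_eq_left hn

/-- Proof: `L.rotate (i + j) = (L.rotate i).rotate j`, and its first `n` entries are those of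
`(L.rotate i).drop j` as `j + n ≤ L.length` (`List.rotate_eq_drop_append_take`). -/
theorem arc_disj (L : List ℕ) (n i j : ℕ) (hL : L.Nodup) (h1 : n ≤ j) (h2 : j + n ≤ L.length) :
    Disjoint (arc L n i) (arc L n (i + j)) := by
  have hr : (L.rotate i).Nodup := List.nodup_rotate.2 hL
  have hlen : (L.rotate i).length = L.length := List.length_rotate _ _
  have hrr : L.rotate (i + j) = (L.rotate i).drop j ++ (L.rotate i).take j := by
    rw [← List.rotate_rotate]
    exact List.rotate_eq_drop_append_take (by omega)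
  unfold arc
  rw [hrr, List.take_append_of_le_length (by
    rw [List.length_drop, hlen]
    omega)]
  rw [Finset.disjoint_left]
  intro x hx hx'
  rw [List.mem_toFinset] at hx hx'
  exact List.disjoint_take_drop hr h1 hx (List.mem_of_mem_take hx')

/-- Proof: `L = R1 ++ (B \ A) ++ [a] ++ (A ∩ B).erase a ++ (A \ B) ++ [b] ++ R2` (lists from `toList`), where
`R1 ++ R2` lists the rest of `V` and `R1.length = n - 1 - r`, `r = (B \ A).card`. The three arcs do not wrap
around: for `i + n ≤ L.length`, `(L.rotate i).take n = (L.drop i).take n`. -/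
theorem exists_list (V A B : Finset ℕ) (a b n : ℕ) (hn : 1 ≤ n) (hV : 2 * n < V.card)
    (hA : A ⊆ V) (hB : B ⊆ V) (cA : A.card = n) (cB : B.card = n) (haA : a ∈ A) (haB : a ∈ B)
    (hb : b ∈ V) (hbA : b ∉ A) (hbB : b ∉ B) :
    ∃ L : List ℕ, L.Nodup ∧ L.toFinset = V ∧ arc L n (n - 1) = A ∧
      arc L n n = insert b (A.erase a) ∧ ∃ j, j < n ∧ arc L n j = B := by
  obtain ⟨r, hr⟩ : ∃ r, r = (B \ A).card := ⟨_, rfl⟩
  have c1 : (A \ B).card = r := by rw [hr]; exact Finset.card_sdiff_comm (cA.trans cB.symm)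
  have c2 : (A ∩ B).card + (A \ B).card = A.card := Finset.card_inter_add_card_sdiff A B
  have haAB : a ∈ A ∩ B := Finset.mem_inter.2 ⟨haA, haB⟩
  have c3 : ((A ∩ B).erase a).card = (A ∩ B).card - 1 := Finset.card_erase_of_mem haAB
  have c3' : 0 < (A ∩ B).card := Finset.card_pos.2 ⟨a, haAB⟩
  have c4 : (A ∪ B).card + (A ∩ B).card = A.card + B.card := Finset.card_union_add_card_inter A B
  have hbU : b ∉ A ∪ B := fun h => (Finset.mem_union.1 h).elim hbA hbB
  have c5 : (insert b (A ∪ B)).card = (A ∪ B).card + 1 := Finset.card_insert_of_notMem hbU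
  have hU : insert b (A ∪ B) ⊆ V := Finset.insert_subset hb (Finset.union_subset hA hB)
  have c6 : (V \ insert b (A ∪ B)).card = V.card - (insert b (A ∪ B)).card := Finset.card_sdiff_of_subset hU
  have c7 : (insert b (A ∪ B)).card ≤ V.card := Finset.card_le_card hU
  obtain ⟨R, hR⟩ : ∃ R : List ℕ, R = (V \ insert b (A ∪ B)).toList := ⟨_, rfl⟩
  obtain ⟨P, hP⟩ : ∃ P : List ℕ, P = (B \ A).toList := ⟨_, rfl⟩
  obtain ⟨Q, hQ⟩ : ∃ Q : List ℕ, Q = ((A ∩ B).erase a).toList := ⟨_, rfl⟩
  obtain ⟨T, hT⟩ : ∃ T : List ℕ, T = (A \ B).toList := ⟨_, rfl⟩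
  have lR : R.length = V.card - (insert b (A ∪ B)).card := by rw [hR, Finset.length_toList, c6]
  have lP : P.length = r := by rw [hP, Finset.length_toList, hr]
  have lQ : Q.length = n - r - 1 := by rw [hQ, Finset.length_toList, c3]; omega
  have lT : T.length = r := by rw [hT, Finset.length_toList, c1]
  have l1 : (R.take (n - 1 - r)).length = n - 1 - r := by rw [List.length_take]; omega
  have l2 : (R.drop (n - 1 - r)).length = R.length - (n - 1 - r) := List.length_drop
  have mR : ∀ x, (x ∈ R.take (n - 1 - r) ∨ x ∈ R.drop (n - 1 - r)) ↔ (x ∈ V ∧ x ≠ b ∧ x ∉ A ∧ x ∉ B) := by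
    intro x
    rw [← List.mem_append, List.take_append_drop, hR, Finset.mem_toList, Finset.mem_sdiff, Finset.mem_insert,
      Finset.mem_union]
    tauto
  have mP : ∀ x, x ∈ P ↔ (x ∈ B ∧ x ∉ A) := fun x => by rw [hP, Finset.mem_toList, Finset.mem_sdiff]
  have mQ : ∀ x, x ∈ Q ↔ (x ≠ a ∧ x ∈ A ∧ x ∈ B) := fun x => by
    rw [hQ, Finset.mem_toList, Finset.mem_erase, Finset.mem_inter]
  have mT : ∀ x, x ∈ T ↔ (x ∈ A ∧ x ∉ B) := fun x => by rw [hT, Finset.mem_toList, Finset.mem_sdiff]
  obtain ⟨L, hL⟩ : ∃ L : List ℕ, L = R.take (n - 1 - r) ++ (P ++ ([a] ++ (Q ++ (T ++ ([b] ++ R.drop (n - 1 - r)))))) :=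
    ⟨_, rfl⟩
  have hLV : L.toFinset = V := by
    ext x
    rw [List.mem_toFinset, hL]
    simp only [List.mem_append, List.mem_singleton, mP, mQ, mT]
    constructor
    · rintro (h | h | h | h | h | h | h)
      · exact ((mR x).1 (Or.inl h)).1
      · exact hB h.1
      · rw [h]; exact hA haA
      · exact hA h.2.1
      · exact hA h.1
      · rw [h]; exact hb
      · exact ((mR x).1 (Or.inr h)).1
    · intro hx
      by_cases h1 : x ∈ A
      · by_cases h2 : x ∈ B
        · by_cases h3 : x = a
          · exact Or.inr (Or.inr (Or.inl h3))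
          · exact Or.inr (Or.inr (Or.inr (Or.inl ⟨h3, h1, h2⟩)))
        · exact Or.inr (Or.inr (Or.inr (Or.inr (Or.inl ⟨h1, h2⟩))))
      · by_cases h2 : x ∈ B
        · exact Or.inr (Or.inl ⟨h2, h1⟩)
        · by_cases h3 : x = b
          · exact Or.inr (Or.inr (Or.inr (Or.inr (Or.inr (Or.inl h3)))))
          · rcases (mR x).2 ⟨hx, h3, h1, h2⟩ with h | h
            · exact Or.inl h
            · exact Or.inr (Or.inr (Or.inr (Or.inr (Or.inr (Or.inr h)))))
  have hlen : L.length = V.card := by
    rw [hL]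
    simp only [List.length_append, List.length_singleton, l1, l2, lP, lQ, lT, lR]
    omega
  have hnd : L.Nodup := by
    have h := Multiset.toFinset_card_eq_card_iff_nodup (m := (L : Multiset ℕ))
    rw [Multiset.coe_nodup] at h
    refine h.1 ?_
    rw [Multiset.coe_card, hlen, ← hLV]
    rfl
  refine ⟨L, hnd, hLV, ?_, ?_, n - 1 - r, by omega, ?_⟩
  · have e : L = (R.take (n - 1 - r) ++ P) ++ (([a] ++ (Q ++ T)) ++ ([b] ++ R.drop (n - 1 - r))) := by
      rw [hL]
      simp only [List.append_assoc]
    rw [e, arc_mid _ _ _ n (n - 1) (by simp only [List.length_append, List.length_singleton, lQ, lT]; omega)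
      (by simp only [List.length_append, l1, lP]; omega)]
    ext x
    rw [List.mem_toFinset]
    simp only [List.mem_append, List.mem_singleton, mQ, mT]
    constructor
    · rintro (h | h | h)
      · rw [h]; exact haA
      · exact h.2.1
      · exact h.1
    · intro h1
      by_cases h2 : x ∈ B
      · by_cases h3 : x = a
        · exact Or.inl h3
        · exact Or.inr (Or.inl ⟨h3, h1, h2⟩)
      · exact Or.inr (Or.inr ⟨h1, h2⟩)
  · have e : L = (R.take (n - 1 - r) ++ (P ++ [a])) ++ ((Q ++ (T ++ [b])) ++ R.drop (n - 1 - r)) := by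
      rw [hL]
      simp only [List.append_assoc]
    rw [e, arc_mid _ _ _ n n (by simp only [List.length_append, List.length_singleton, lQ, lT]; omega)
      (by simp only [List.length_append, List.length_singleton, l1, lP]; omega)]
    ext x
    rw [List.mem_toFinset, Finset.mem_insert, Finset.mem_erase]
    simp only [List.mem_append, List.mem_singleton, mQ, mT]
    constructor
    · rintro (h | h | h)
      · exact Or.inr ⟨h.1, h.2.1⟩
      · refine Or.inr ⟨fun h' => h.2 ?_, h.1⟩
        rw [h']
        exact haB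
      · exact Or.inl h
    · rintro (h | ⟨h3, h1⟩)
      · exact Or.inr (Or.inr h)
      · by_cases h2 : x ∈ B
        · exact Or.inl ⟨h3, h1, h2⟩
        · exact Or.inr (Or.inl ⟨h1, h2⟩)
  · have e : L = R.take (n - 1 - r) ++ ((P ++ ([a] ++ Q)) ++ (T ++ ([b] ++ R.drop (n - 1 - r)))) := by
      rw [hL]
      simp only [List.append_assoc]
    rw [e, arc_mid _ _ _ n (n - 1 - r) (by simp only [List.length_append, List.length_singleton, lP, lQ]; omega) l1]
    ext x
    rw [List.mem_toFinset]
    simp only [List.mem_append, List.mem_singleton, mP, mQ]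
    constructor
    · rintro (h | h | h)
      · exact h.1
      · rw [h]; exact haB
      · exact h.2.2
    · intro h1
      by_cases h2 : x ∈ A
      · by_cases h3 : x = a
        · exact Or.inr (Or.inl h3)
        · exact Or.inr (Or.inr ⟨h3, h2, h1⟩)
      · exact Or.inl ⟨h1, h2⟩

end Pool.Agent.Lib.MP_6805b2_co.FR
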