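import Pool.Agent.Lib.MP_6805b2_co.FR.Core
import Pool.Agent.Lib.MP_6805b2_co.FR.Arc
import Pool.Agent.Lib.MP_6805b2_co.FR.Lst
import Pool.Agent.Lib.MP_6805b2_co.FR.Exch

/-!
# The number of the colour classes without a centre
-/

namespace Pool.Agent.Lib.MP_6805b2_co.FR

open Finset

/-- The number of the arcs of a cyclic order in a colour class is at most `n`; in total the classes
contain at least `m K` arcs. -/
theorem defic {n : ℕ} {V C : Finset ℕ} {F : ℕ → Finset (Finset ℕ)} {K : ℕ} (hS : Sy n V C F K)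
    (hn : 1 ≤ n) (hV : 2 * n < V.card) (L : List ℕ) (hL : L.Nodup) (hLV : L.toFinset = V) :
    (C.filter (fun c => ((range V.card).filter (fun i => arc L n i ∈ F c)).card < n)).card +
      V.card * K ≤ n * C.card := by
  classical
  have hlen : L.length = V.card := by rw [← hLV, List.toFinset_card_of_nodup hL]
  have hle : ∀ c ∈ C, ((range V.card).filter (fun i => arc L n i ∈ F c)).card ≤ n := by
    intro c hc
    refine arc_le n V.card hn hV (fun i => arc L n i ∈ F c) ?_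
    intro i j h1 h2 h3 h4
    exact hS.int c hc _ h3 _ h4 (arc_disj L n i j hL h1 (by rw [hlen]; exact h2))
  have h1 : V.card * K ≤ ∑ c ∈ C, ((range V.card).filter (fun i => arc L n i ∈ F c)).card := by
    have h2 : ∑ _i ∈ range V.card, K ≤
        ∑ i ∈ range V.card, (C.filter (fun c => arc L n i ∈ F c)).card := by
      refine sum_le_sum fun i _ => ?_
      have h3 := arc_sub L n i hL (by omega)
      exact hS.cov _ (by rw [← hLV]; exact h3.1) h3.2
    rw [sum_const, card_range, smul_eq_mul] at h2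
    refine h2.trans (le_of_eq ?_)
    simp only [card_filter]
    exact sum_comm
  have h2 : (C.filter (fun c => ((range V.card).filter (fun i => arc L n i ∈ F c)).card < n)).card +
      ∑ c ∈ C, ((range V.card).filter (fun i => arc L n i ∈ F c)).card ≤ n * C.card := by
    rw [card_filter, ← sum_add_distrib]
    refine (sum_le_card_nsmul C _ n fun c hc => ?_).trans
      (le_of_eq (by rw [smul_eq_mul, mul_comm]))
    have := hle c hc
    split_ifs with h <;> omega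
  omega

/-- The number of the classes without a centre is bounded. -/
theorem few {n : ℕ} {V C : Finset ℕ} {F : ℕ → Finset (Finset ℕ)} {K D : ℕ} (hS : Sy n V C F K)
    (hn : 1 ≤ n) (hV : 2 * n < V.card) (hD : n * C.card ≤ D + V.card * K) (B : Finset ℕ)
    (hB : ∀ c ∈ B, c ∈ C ∧ ∀ x ∈ V, ∃ X ∈ F c, x ∉ X) :
    B.card ≤ V.card.choose n ^ 2 * V.card ^ 2 * D := by
  classical
  set Q : Finset ((Finset ℕ × Finset ℕ) × (ℕ × ℕ)) :=
    ((V.powersetCard n) ×ˢ (V.powersetCard n)) ×ˢ (V ×ˢ V) with hQ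
  have hex : ∀ p : (Finset ℕ × Finset ℕ) × (ℕ × ℕ), ∃ L : List ℕ,
      (p.1.1 ⊆ V ∧ p.1.1.card = n ∧ p.1.2 ⊆ V ∧ p.1.2.card = n ∧ p.2.1 ∈ p.1.1 ∧ p.2.1 ∈ p.1.2 ∧
        p.2.2 ∈ V ∧ p.2.2 ∉ p.1.1 ∧ p.2.2 ∉ p.1.2) → L.Nodup ∧ L.toFinset = V ∧
        arc L n (n - 1) = p.1.1 ∧ arc L n n = insert p.2.2 (p.1.1.erase p.2.1) ∧
        ∃ j, j < n ∧ arc L n j = p.1.2 := by
    intro p
    by_cases h : (p.1.1 ⊆ V ∧ p.1.1.card = n ∧ p.1.2 ⊆ V ∧ p.1.2.card = n ∧ p.2.1 ∈ p.1.1 ∧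
        p.2.1 ∈ p.1.2 ∧ p.2.2 ∈ V ∧ p.2.2 ∉ p.1.1 ∧ p.2.2 ∉ p.1.2)
    · obtain ⟨h1, h2, h3, h4, h5, h6, h7, h8, h9⟩ := h
      obtain ⟨L, hL⟩ := exists_list V p.1.1 p.1.2 p.2.1 p.2.2 n hn hV h1 h3 h2 h4 h5 h6 h7 h8 h9
      exact ⟨L, fun _ => hL⟩
    · exact ⟨[], fun h' => absurd h' h⟩
  choose Lq hLq using hex
  set Q' := Q.filter (fun p => (p.1.1 ⊆ V ∧ p.1.1.card = n ∧ p.1.2 ⊆ V ∧ p.1.2.card = n ∧
    p.2.1 ∈ p.1.1 ∧ p.2.1 ∈ p.1.2 ∧ p.2.2 ∈ V ∧ p.2.2 ∉ p.1.1 ∧ p.2.2 ∉ p.1.2)) with hQ'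
  have hsub : B ⊆ Q'.biUnion fun p =>
      C.filter (fun c => ((range V.card).filter (fun i => arc (Lq p) n i ∈ F c)).card < n) := by
    intro c hc
    obtain ⟨hcC, hns⟩ := hB c hc
    obtain ⟨A, B', a, b, h1, h2, h3, h4, h5, h6, h7, h8, h9, h10, h11, h12⟩ :=
      exch V n hn hV (F c) (hS.sub c hcC) (hS.int c hcC) hns
    have hp := hLq ((A, B'), (a, b)) ⟨h1, h2, h3, h4, h5, h6, h7, h8, h9⟩
    refine mem_biUnion.2 ⟨((A, B'), (a, b)), mem_filter.2 ⟨?_, h1, h2, h3, h4, h5, h6, h7, h8, h9⟩,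
      mem_filter.2 ⟨hcC, ?_⟩⟩
    · exact mem_product.2 ⟨mem_product.2 ⟨mem_powersetCard.2 ⟨h1, h2⟩, mem_powersetCard.2 ⟨h3, h4⟩⟩,
        mem_product.2 ⟨h1 h5, h7⟩⟩
    · by_contra hcon
      rw [not_lt] at hcon
      obtain ⟨g1, g2, g3, g4, j, g5, g6⟩ := hp
      have hlen : (Lq ((A, B'), (a, b))).length = V.card := by
        rw [← g2, List.toFinset_card_of_nodup g1]
      have := arc_eq n V.card hn hV (fun i => arc (Lq ((A, B'), (a, b))) n i ∈ F c)
        (fun i j h1 h2 h3 h4 => hS.int c hcC _ h3 _ h4 (arc_disj _ n i j g1 h1 (by rw [hlen]; exact h2)))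
        (by simp only [g3]; exact h10) (by simp only [g4]; exact h11) hcon j g5
      simp only [g6] at this
      exact h12 this
  have hQc : Q'.card ≤ V.card.choose n ^ 2 * V.card ^ 2 := by
    refine (card_filter_le _ _).trans (le_of_eq ?_)
    rw [hQ, card_product, card_product, card_product, card_powersetCard]
    ring
  refine (card_le_card hsub).trans (card_biUnion_le.trans ?_)
  refine (sum_le_card_nsmul Q' _ D fun p hp => ?_).trans ?_
  · have h1 := hLq p (mem_filter.1 hp).2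
    have h2 := defic hS hn hV (Lq p) h1.1 h1.2.1
    omega
  · rw [smul_eq_mul]
    exact Nat.mul_le_mul_right _ hQc

/-- For `m = 2 n` there is no counterexample. -/
theorem no_two (n q : ℕ) (hn : 1 ≤ n) (hq : 1 ≤ q) : ¬ Cex n (2 * n) q := by
  rintro ⟨V, C, F, hV, hC, hS⟩
  obtain ⟨X, hX, hXn⟩ := exists_subset_card_eq (show n ≤ V.card by omega)
  have hY : (V \ X).card = n := by
    rw [card_sdiff_of_subset hX]
    omega
  have h1 := hS.cov X hX hXn
  have h2 := hS.cov (V \ X) sdiff_subset hY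
  have h3 : Disjoint (C.filter (fun c => X ∈ F c)) (C.filter (fun c => V \ X ∈ F c)) := by
    rw [disjoint_left]
    intro c hc hc'
    obtain ⟨g1, g2⟩ := mem_filter.1 hc
    exact hS.int c g1 X g2 _ (mem_filter.1 hc').2 disjoint_sdiff
  have h4 := card_union_of_disjoint h3
  have h5 := card_le_card (union_subset (filter_subset (fun c => X ∈ F c) C)
    (filter_subset (fun c => V \ X ∈ F c) C))
  rw [h4] at h5
  obtain ⟨p, rfl⟩ : ∃ p, q = p + 1 := ⟨q - 1, by omega⟩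
  rw [Nat.add_sub_cancel] at h1 h2
  have e : (p + 1) * (2 * n) = 2 * (p * n) + 2 * n := by ring
  rw [e] at hC
  omega

end Pool.Agent.Lib.MP_6805b2_co.FR
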