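import Pool.Agent.Lib.MP_6805b2_co.FR.Red
import Pool.Agent.Lib.MP_6805b2_co.FR.Cnt

/-!
# An explicit bound for both parameters
-/

namespace Pool.Agent.Lib.MP_6805b2_co.FR

open Finset

private theorem ar3 (k m : ℕ) (hm : k + 2 ≤ m) (K τ β : ℕ)
    (h : K * (m - 1).choose (k + 1) ≤ τ * (m - 2).choose k + β * ((k + 2) * (m - 2).choose k)) :
    K * (m - 1) ≤ (k + 1) * (τ + (k + 2) * β) := by
  obtain ⟨p, rfl⟩ : ∃ p, m = p + 2 := ⟨m - 2, by omega⟩
  have e1 : (p + 1) * p.choose k = (p + 1).choose (k + 1) * (k + 1) := Nat.add_one_mul_choose_eq p k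
  have ht : 0 < p.choose k := Nat.choose_pos (by omega)
  simp only [Nat.add_sub_cancel, show p + 2 - 1 = p + 1 from rfl] at h ⊢
  refine Nat.le_of_mul_le_mul_right ?_ ht
  have h1 := Nat.mul_le_mul_right (k + 1) h
  calc K * (p + 1) * p.choose k = K * (p + 1).choose (k + 1) * (k + 1) := by
        rw [mul_assoc, e1]; ring
    _ ≤ _ := h1
    _ = (k + 1) * (τ + (k + 2) * β) * p.choose k := by ring

/-- The bound for `q`. -/
def bd (n m : ℕ) : ℕ := n ^ 2 * m ^ 3 * m.choose n ^ 2

/-- The arithmetic of the bound. -/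
theorem bound_q2 (k m q τ β : ℕ) (hq : 1 ≤ q) (hm : 2 * (k + 2) < m)
    (h1 : τ + β + 2 * (k + 2) ≤ q * m + 1)
    (h2 : β ≤ m.choose (k + 2) ^ 2 * m ^ 2 * ((k + 2) * m))
    (h4 : ((q - 1) * (k + 2) + 1) * (m - 1) ≤ (k + 1) * (τ + (k + 2) * β)) :
    q ≤ bd (k + 2) m := by
  obtain ⟨Q, rfl⟩ : ∃ Q, q = Q + 1 := ⟨q - 1, by omega⟩
  obtain ⟨p, rfl⟩ : ∃ p, m = p + (2 * k + 5) := ⟨m - (2 * k + 5), by omega⟩
  have e1 : p + (2 * k + 5) - 1 = p + (2 * k + 4) := by omega
  rw [Nat.add_sub_cancel, e1] at h4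
  have hQ : Q * (p + (k + 3)) ≤ (k + 1) ^ 2 * β + (k + 1) * (p + 1) := by
    have b1 := Nat.mul_le_mul_left (k + 1) h1
    nlinarith
  have hQ2 : Q ≤ (k + 1) * β + (k + 1) := by
    have b2 : Q * (p + (k + 3)) ≤ ((k + 1) * β + (k + 1)) * (p + (k + 3)) := by
      refine hQ.trans ?_
      have b3 : (k + 1) ^ 2 * β ≤ (k + 1) * β * (p + (k + 3)) := by
        have : (k + 1) * β * (k + 1) ≤ (k + 1) * β * (p + (k + 3)) :=
          Nat.mul_le_mul_left _ (by omega)
        calc (k + 1) ^ 2 * β = (k + 1) * β * (k + 1) := by ring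
          _ ≤ _ := this
      have b4 : (k + 1) * (p + 1) ≤ (k + 1) * (p + (k + 3)) := Nat.mul_le_mul_left _ (by omega)
      calc _ ≤ (k + 1) * β * (p + (k + 3)) + (k + 1) * (p + (k + 3)) := Nat.add_le_add b3 b4
        _ = _ := by ring
    exact Nat.le_of_mul_le_mul_right b2 (by omega)
  unfold bd
  set m := p + (2 * k + 5) with hmdef
  have hch : 1 ≤ m.choose (k + 2) := Nat.choose_pos (by omega)
  have hX : 1 ≤ m.choose (k + 2) ^ 2 * m ^ 2 := by
    have : 0 < m.choose (k + 2) ^ 2 * m ^ 2 := by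
      have : 0 < m := by omega
      positivity
    omega
  have c1 : (k + 1) * β ≤ (k + 1) * (m.choose (k + 2) ^ 2 * m ^ 2 * ((k + 2) * m)) :=
    Nat.mul_le_mul_left _ h2
  have c2 : k + 2 ≤ m.choose (k + 2) ^ 2 * m ^ 2 * ((k + 2) * m) := by
    have c3 : (k + 2) * 1 ≤ (k + 2) * m := Nat.mul_le_mul_left _ (by omega)
    calc k + 2 = (k + 2) * 1 := by ring
      _ ≤ (k + 2) * m := c3
      _ = 1 * ((k + 2) * m) := by ring
      _ ≤ _ := Nat.mul_le_mul_right _ hX
  calc Q + 1 ≤ (k + 1) * (m.choose (k + 2) ^ 2 * m ^ 2 * ((k + 2) * m)) +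
        m.choose (k + 2) ^ 2 * m ^ 2 * ((k + 2) * m) := by omega
    _ = (k + 2) ^ 2 * m ^ 3 * m.choose (k + 2) ^ 2 := by ring

theorem tri2 (k m q : ℕ) (hm : 2 * (k + 2) < m) (hq : 1 ≤ q) (h : Cex (k + 2) m q) :
    Cex (k + 2) (m - 1) q ∨ (2 ≤ q ∧ Cex (k + 2) m (q - 1)) ∨ q ≤ bd (k + 2) m := by
  classical
  obtain ⟨V, C, F, hV, hC, hS⟩ := h
  obtain ⟨ctr, hctr⟩ := exists_ctr V F
  set T := C.filter (fun c => ∃ x ∈ V, ∀ X ∈ F c, x ∈ X) with hT
  set B := C.filter (fun c => ¬ ∃ x ∈ V, ∀ X ∈ F c, x ∈ X) with hB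
  have hVn : V.Nonempty := card_pos.1 (by omega)
  have hTB : T.card + B.card = C.card := card_filter_add_card_filter_not _
  have hTC : ∀ c ∈ T, c ∈ C ∧ ctr c ∈ V ∧ ∀ X ∈ F c, ctr c ∈ X := by
    intro c hc
    obtain ⟨h1, h2⟩ := mem_filter.1 hc
    exact ⟨h1, hctr c h2⟩
  have hBC : ∀ c ∈ B, c ∈ C ∧ ∀ x ∈ V, ∃ X ∈ F c, x ∉ X := by
    intro c hc
    obtain ⟨h1, h2⟩ := mem_filter.1 hc
    refine ⟨h1, fun x hx => ?_⟩
    by_contra hcon
    push Not at hcon
    exact h2 ⟨x, hx, hcon⟩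
  let A : ℕ → Finset ℕ := fun x => T.filter (fun c => ctr c = x)
  have hAC : ∀ x, A x ⊆ C := fun x c hc => (hTC c (mem_filter.1 hc).1).1
  have hAx : ∀ x, ∀ c ∈ A x, ∀ X ∈ F c, x ∈ X := by
    intro x c hc X hX
    obtain ⟨h1, h2⟩ := mem_filter.1 hc
    rw [← h2]
    exact (hTC c h1).2.2 X hX
  by_cases hA : ∃ x ∈ V, q ≤ (A x).card
  · left
    obtain ⟨x, hx, hqx⟩ := hA
    refine ⟨V.erase x, C \ A x, _, ?_, ?_, removeA hS x (A x) (hAx x)⟩
    · rw [card_erase_of_mem hx, hV]
    · rw [card_sdiff_of_subset (hAC x)]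
      have h1 := card_le_card (hAC x)
      obtain ⟨p, rfl⟩ : ∃ p, m = p + 1 := ⟨m - 1, by omega⟩
      rw [Nat.add_sub_cancel]
      have e : q * (p + 1) = q * p + q := by ring
      rw [e] at hC
      omega
  · right
    push Not at hA
    by_cases hq2 : 2 ≤ q
    · by_cases hne : ∀ x ∈ V, (A x).Nonempty
      · left
        refine ⟨hq2, ?_⟩
        have h1 : ∀ x, ∃ c, x ∈ V → c ∈ A x := by
          intro x
          by_cases hx : x ∈ V
          · obtain ⟨c, hc⟩ := hne x hx
            exact ⟨c, fun _ => hc⟩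
          · exact ⟨0, fun h => absurd h hx⟩
        choose g hg using h1
        have h2 := removeC hS g (fun x hx => hAx x (g x) (hg x hx))
        refine ⟨V, C \ V.image g, F, hV, ?_, ?_⟩
        · have h3 : V.image g ⊆ C := by
            intro c hc
            obtain ⟨x, hx, rfl⟩ := mem_image.1 hc
            exact hAC x (hg x hx)
          have h4 : (V.image g).card = m := by
            rw [← hV]
            refine card_image_of_injOn ?_
            intro x hx y hy hxy
            have e1 := (mem_filter.1 (hg x hx)).2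
            have e2 := (mem_filter.1 (hg y hy)).2
            rw [← e1, ← e2]
            exact congrArg ctr hxy
          rw [card_sdiff_of_subset h3, h4]
          have h5 := card_le_card h3
          rw [h4] at h5
          obtain ⟨p, rfl⟩ : ∃ p, q = p + 1 := ⟨q - 1, by omega⟩
          rw [Nat.add_sub_cancel]
          have e : (p + 1) * m = p * m + m := by ring
          rw [e] at hC
          omega
        · have h3 : (q - 1) * (k + 2) + 1 - (k + 2) = (q - 1 - 1) * (k + 2) + 1 := by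
            obtain ⟨p, rfl⟩ : ∃ p, q = p + 2 := ⟨q - 2, by omega⟩
            have e1 : p + 2 - 1 = p + 1 := rfl
            have e2 : p + 1 - 1 = p := rfl
            rw [e1, e2, add_mul, one_mul]
            omega
          rw [← h3]
          exact h2
      · right
        push Not at hne
        obtain ⟨x, hx, hxe⟩ := hne
        refine bound_q2 k m q T.card B.card hq hm (by rw [hTB]; exact hC) ?_
          (ar3 k m (by omega) _ _ _ ?_)
        · have hD : (k + 2) * C.card ≤ (k + 2) * m + V.card * ((q - 1) * (k + 2) + 1) := by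
            rw [hV]
            obtain ⟨p, rfl⟩ : ∃ p, q = p + 1 := ⟨q - 1, by omega⟩
            rw [Nat.add_sub_cancel]
            have g1 := Nat.mul_le_mul_left (k + 2) hC
            nlinarith
          have := few hS (by omega) (by rw [hV]; exact hm) hD B hBC
          rwa [hV] at this
        have h1 := dc hS ((V.powersetCard (k + 2)).filter (fun X => x ∈ X)) (filter_subset _ _)
        rw [one V x hx (k + 1), hV] at h1
        refine h1.trans ?_
        have h2 : ∑ c ∈ C, ((F c).filter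
            (fun X => X ∈ (V.powersetCard (k + 2)).filter (fun X => x ∈ X))).card ≤
            ∑ c ∈ C, ((F c).filter (fun X => x ∈ X)).card := by
          refine sum_le_sum fun c _ => card_le_card fun X hX => ?_
          obtain ⟨h3, h4⟩ := mem_filter.1 hX
          exact mem_filter.2 ⟨h3, (mem_filter.1 h4).2⟩
        refine h2.trans ?_
        rw [← sum_filter_add_sum_filter_not C (fun c => ∃ x ∈ V, ∀ X ∈ F c, x ∈ X)]
        refine Nat.add_le_add ?_ ?_
        · refine (sum_le_card_nsmul T _ ((m - 2).choose k) fun c hc => ?_).trans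
            (le_of_eq (smul_eq_mul _ _))
          rw [← hV]
          refine star_at V k (F c) (hS.sub c (hTC c hc).1) x (ctr c) hx ?_ (hTC c hc).2.1
            (hTC c hc).2.2
          intro hxc
          have : c ∈ A x := mem_filter.2 ⟨hc, hxc.symm⟩
          rw [hxe] at this
          exact absurd this (notMem_empty _)
        · refine (sum_le_card_nsmul B _ ((k + 2) * (m - 2).choose k)
            fun c hc => ?_).trans (le_of_eq (smul_eq_mul _ _))
          rw [← hV]
          exact non_at V k (F c) (hS.sub c (hBC c hc).1) (hS.int c (hBC c hc).1) x hx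
            ((hBC c hc).2 x hx)
    · right
      have hq1 : q = 1 := by omega
      subst hq1
      unfold bd
      have hch : 0 < m.choose (k + 2) := Nat.choose_pos (by omega)
      have : 0 < (k + 2) ^ 2 * m ^ 3 * m.choose (k + 2) ^ 2 := by
        have : 0 < m := by omega
        positivity
      omega

/-- The reduction with a bound for both parameters. -/
theorem red2 (k : ℕ) (hk : 1 ≤ k) : ∀ s m q : ℕ, m + q ≤ s → 2 * (k + 2) ≤ m → 1 ≤ q →
    Cex (k + 2) m q → ∃ m' q', m' ≤ m ∧ q' ≤ q ∧ m' ≤ 2 * (k + 2) ^ 2 * (k + 1) ∧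
      q' ≤ bd (k + 2) m' ∧
      (m' ≤ 4 * (k + 2) ^ 2 ∨ 2 * m' ≤ (k + 2) ^ 3 ∨ q' ≤ 4 * (k + 2) ^ 2) ∧
      2 * (k + 2) < m' ∧ 1 ≤ q' ∧ Cex (k + 2) m' q' := by
  intro s
  induction s with
  | zero => intro m q h hm; omega
  | succ s ih =>
    intro m q h hm hq hc
    have hm' : 2 * (k + 2) < m := by
      rcases Nat.lt_or_ge (2 * (k + 2)) m with h' | h'
      · exact h'
      · exfalso
        have : m = 2 * (k + 2) := by omega
        subst this
        exact no_two (k + 2) q (by omega) hq hc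
    rcases tri2 k m q hm' hq hc with h1 | ⟨h2, h1⟩ | hbd
    · obtain ⟨m', q', g1, g2, g3, g4, g5, g6, g7, g8⟩ := ih (m - 1) q (by omega) (by omega) hq h1
      exact ⟨m', q', by omega, g2, g3, g4, g5, g6, g7, g8⟩
    · obtain ⟨m', q', g1, g2, g3, g4, g5, g6, g7, g8⟩ := ih m (q - 1) (by omega) hm (by omega) h1
      exact ⟨m', q', g1, by omega, g3, g4, g5, g6, g7, g8⟩
    · by_cases hgood : m ≤ 2 * (k + 2) ^ 2 * (k + 1) ∧
          (m ≤ 4 * (k + 2) ^ 2 ∨ 2 * m ≤ (k + 2) ^ 3 ∨ q ≤ 4 * (k + 2) ^ 2)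
      · exact ⟨m, q, le_rfl, le_rfl, hgood.1, hbd, hgood.2, hm', hq, hc⟩
      · have e1 : (k + 2) ^ 3 < 2 * (2 * (k + 2) ^ 2 * (k + 1)) := by
          have : (k + 2) ^ 3 + (k + 2) ^ 2 * (3 * k + 2) = 2 * (2 * (k + 2) ^ 2 * (k + 1)) := by ring
          have h2 : 0 < (k + 2) ^ 2 * (3 * k + 2) := by positivity
          omega
        have e4 : 16 ≤ 4 * (k + 2) ^ 2 := by nlinarith
        have e5 : 4 * (k + 2) * (k + 1) ≤ 4 * (k + 2) ^ 2 := by nlinarith
        have hm3 : (k + 2) ^ 3 < 2 * m := by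
          by_cases hb : m ≤ 2 * (k + 2) ^ 2 * (k + 1)
          · have h1 : ¬ (m ≤ 4 * (k + 2) ^ 2) := fun h' => hgood ⟨hb, Or.inl h'⟩
            have h2 : ¬ (2 * m ≤ (k + 2) ^ 3) := fun h' => hgood ⟨hb, Or.inr (Or.inl h')⟩
            omega
          · omega
        rcases tri k m q hk hm hm3 hq hc with h1 | ⟨τ, β, h1, h2, h3, h4⟩
        · obtain ⟨m', q', g1, g2, g3, g4, g5, g6, g7, g8⟩ := ih (m - 1) q (by omega) (by omega) hq h1
          exact ⟨m', q', by omega, g2, g3, g4, g5, g6, g7, g8⟩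
        · have hb := bound_m k m q τ β hq h1 h2 h3
          have hb2 : 4 * (k + 2) ^ 2 < m := by
            by_contra hcon
            exact hgood ⟨hb, Or.inl (by omega)⟩
          have hb3 : 4 * (k + 2) ^ 2 < q := by
            by_contra hcon
            exact hgood ⟨hb, Or.inr (Or.inr (by omega))⟩
          rcases h4 (by omega) with h5 | h5
          · obtain ⟨m', q', g1, g2, g3, g4, g5, g6, g7, g8⟩ := ih m (q - 1) (by omega) hm (by omega) h5
            exact ⟨m', q', g1, by omega, g3, g4, g5, g6, g7, g8⟩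
          · have := bound_q k m q τ β hq hm (by omega) h1 h3 h5
            omega

end Pool.Agent.Lib.MP_6805b2_co.FR
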