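import Mathlib

/-!
# Minimal counterexamples to Stahl's conjecture: colour classes and double counting

Points and colours are natural numbers. `Sy n V C F K`: the `F c`, `c ∈ C`, are intersecting families of
`n`-subsets of `V`, and every `n`-subset of `V` is in at least `K` of them.
-/

namespace Pool.Agent.Lib.MP_6805b2_co.FR

open Finset

/-- `C` is a set of colours, `F c` the intersecting family of the `n`-subsets of `V` with the colour
`c`; every `n`-subset of `V` has at least `K` colours. -/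
structure Sy (n : ℕ) (V C : Finset ℕ) (F : ℕ → Finset (Finset ℕ)) (K : ℕ) : Prop where
  sub : ∀ c ∈ C, ∀ X ∈ F c, X ⊆ V ∧ X.card = n
  int : ∀ c ∈ C, ∀ X ∈ F c, ∀ Y ∈ F c, ¬ Disjoint X Y
  cov : ∀ X, X ⊆ V → X.card = n → K ≤ (C.filter (fun c => X ∈ F c)).card

/-- A counterexample for the parameters `n, m, q`. -/
def Cex (n m q : ℕ) : Prop := ∃ (V C : Finset ℕ) (F : ℕ → Finset (Finset ℕ)),
  V.card = m ∧ C.card + 2 * n ≤ q * m + 1 ∧ Sy n V C F ((q - 1) * n + 1)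

theorem img (V : Finset ℕ) (x : ℕ) (hx : x ∈ V) (k : ℕ) :
    (V.powersetCard (k + 1)).filter (fun X => x ∈ X) =
      ((V.erase x).powersetCard k).image (insert x) := by
  ext X
  simp only [mem_filter, mem_powersetCard, mem_image]
  constructor
  · rintro ⟨⟨h1, h2⟩, h3⟩
    exact ⟨X.erase x, ⟨erase_subset_erase x h1, by rw [card_erase_of_mem h3, h2]; rfl⟩,
      insert_erase h3⟩
  · rintro ⟨Y, ⟨h1, h2⟩, rfl⟩
    have hxY : x ∉ Y := fun h => (notMem_erase x V) (h1 h)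
    refine ⟨⟨insert_subset hx (h1.trans (erase_subset _ _)), ?_⟩, mem_insert_self _ _⟩
    rw [card_insert_of_notMem hxY, h2]

theorem inj (V : Finset ℕ) (x : ℕ) (k : ℕ) :
    Set.InjOn (insert x : Finset ℕ → Finset ℕ) ((V.erase x).powersetCard k : Finset (Finset ℕ)) := by
  intro Y hY Z hZ h
  have hY' : x ∉ Y := fun hh => (notMem_erase x V) ((mem_powersetCard.1 hY).1 hh)
  have hZ' : x ∉ Z := fun hh => (notMem_erase x V) ((mem_powersetCard.1 hZ).1 hh)
  have := congrArg (fun T => Finset.erase T x) h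
  simpa [erase_insert hY', erase_insert hZ'] using this

theorem one (V : Finset ℕ) (x : ℕ) (hx : x ∈ V) (k : ℕ) :
    ((V.powersetCard (k + 1)).filter (fun X => x ∈ X)).card = (V.card - 1).choose k := by
  rw [img V x hx k, card_image_of_injOn (inj V x k), card_powersetCard, card_erase_of_mem hx]

theorem two (V : Finset ℕ) (x y : ℕ) (hx : x ∈ V) (hxy : x ≠ y) (hy : y ∈ V) (k : ℕ) :
    ((V.powersetCard (k + 2)).filter (fun X => x ∈ X ∧ y ∈ X)).card ≤ (V.card - 2).choose k := by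
  have h1 : (V.powersetCard (k + 2)).filter (fun X => x ∈ X ∧ y ∈ X) ⊆
      (((V.erase x).powersetCard (k + 1)).filter (fun X => y ∈ X)).image (insert x) := by
    intro X hX
    obtain ⟨h1, h2, h3⟩ := mem_filter.1 hX
    obtain ⟨h4, h5⟩ := mem_powersetCard.1 h1
    refine mem_image.2 ⟨X.erase x, mem_filter.2 ⟨mem_powersetCard.2 ⟨erase_subset_erase x h4, ?_⟩,
      mem_erase.2 ⟨hxy.symm, h3⟩⟩, insert_erase h2⟩
    rw [card_erase_of_mem h2, h5]
    rfl
  refine (card_le_card h1).trans (card_image_le.trans ?_)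
  rw [one (V.erase x) y (mem_erase.2 ⟨hxy.symm, hy⟩) k, card_erase_of_mem hx]
  have : V.card - 1 - 1 = V.card - 2 := by omega
  rw [this]

theorem three (V : Finset ℕ) (x y z : ℕ) (hx : x ∈ V) (hy : y ∈ V) (hz : z ∈ V) (hxy : x ≠ y)
    (hxz : x ≠ z) (hyz : y ≠ z) (j : ℕ) :
    ((V.powersetCard (j + 3)).filter (fun X => x ∈ X ∧ y ∈ X ∧ z ∈ X)).card ≤
      (V.card - 3).choose j := by
  have h1 : (V.powersetCard (j + 3)).filter (fun X => x ∈ X ∧ y ∈ X ∧ z ∈ X) ⊆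
      (((V.erase x).powersetCard (j + 2)).filter (fun X => y ∈ X ∧ z ∈ X)).image (insert x) := by
    intro X hX
    obtain ⟨h1, h2, h3, h3'⟩ := mem_filter.1 hX
    obtain ⟨h4, h5⟩ := mem_powersetCard.1 h1
    refine mem_image.2 ⟨X.erase x, mem_filter.2 ⟨mem_powersetCard.2 ⟨erase_subset_erase x h4, ?_⟩,
      mem_erase.2 ⟨hxy.symm, h3⟩, mem_erase.2 ⟨hxz.symm, h3'⟩⟩, insert_erase h2⟩
    rw [card_erase_of_mem h2, h5]
    rfl
  refine (card_le_card h1).trans (card_image_le.trans ?_)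
  refine (two (V.erase x) y z (mem_erase.2 ⟨hxy.symm, hy⟩) hyz (mem_erase.2 ⟨hxz.symm, hz⟩) j).trans
    (le_of_eq ?_)
  rw [card_erase_of_mem hx]
  have : V.card - 1 - 2 = V.card - 3 := by omega
  rw [this]

section Fam

variable (V : Finset ℕ) (k : ℕ) (G : Finset (Finset ℕ))
  (hG : ∀ X ∈ G, X ⊆ V ∧ X.card = k + 2)
include hG

theorem star (x : ℕ) (hx : x ∈ V) (h : ∀ X ∈ G, x ∈ X) : G.card ≤ (V.card - 1).choose (k + 1) := by
  rw [← one V x hx (k + 1)]
  refine card_le_card fun X hX => mem_filter.2 ⟨mem_powersetCard.2 (hG X hX), h X hX⟩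

theorem star_at (x y : ℕ) (hx : x ∈ V) (hxy : x ≠ y) (hy : y ∈ V) (h : ∀ X ∈ G, y ∈ X) :
    (G.filter (fun X => x ∈ X)).card ≤ (V.card - 2).choose k := by
  refine le_trans (card_le_card fun X hX => ?_) (two V x y hx hxy hy k)
  obtain ⟨h1, h2⟩ := mem_filter.1 hX
  exact mem_filter.2 ⟨mem_powersetCard.2 (hG X h1), h2, h X h1⟩

theorem non_at (hI : ∀ X ∈ G, ∀ Y ∈ G, ¬ Disjoint X Y) (x : ℕ) (hx : x ∈ V)
    (h : ∃ X ∈ G, x ∉ X) :
    (G.filter (fun X => x ∈ X)).card ≤ (k + 2) * (V.card - 2).choose k := by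
  obtain ⟨T, hT, hxT⟩ := h
  have h1 : G.filter (fun X => x ∈ X) ⊆ T.biUnion fun y =>
      (V.powersetCard (k + 2)).filter (fun X => x ∈ X ∧ y ∈ X) := by
    intro X hX
    obtain ⟨h1, h2⟩ := mem_filter.1 hX
    obtain ⟨y, hy1, hy2⟩ := Finset.not_disjoint_iff.1 (hI X h1 T hT)
    exact mem_biUnion.2 ⟨y, hy2, mem_filter.2 ⟨mem_powersetCard.2 (hG X h1), h2, hy1⟩⟩
  refine (card_le_card h1).trans (card_biUnion_le.trans ?_)
  have h2 : ∀ y ∈ T, ((V.powersetCard (k + 2)).filter (fun X => x ∈ X ∧ y ∈ X)).card ≤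
      (V.card - 2).choose k := by
    intro y hy
    exact two V x y hx (fun h => hxT (h ▸ hy)) ((hG T hT).1 hy) k
  refine (sum_le_sum h2).trans (le_of_eq ?_)
  rw [sum_const, (hG T hT).2, smul_eq_mul]

/-- A family covered by two points, with a member avoiding each of them. -/
theorem non2 (hI : ∀ X ∈ G, ∀ Y ∈ G, ¬ Disjoint X Y) (h : ∀ x ∈ V, ∃ X ∈ G, x ∉ X)
    (x y : ℕ) (hx : x ∈ V) (hy : y ∈ V) (hxy : ∀ X ∈ G, x ∈ X ∨ y ∈ X) :
    G.card ≤ 2 * (k + 2) * (V.card - 2).choose k := by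
  have h1 : G ⊆ G.filter (fun X => x ∈ X) ∪ G.filter (fun X => y ∈ X) := by
    intro X hX
    rcases hxy X hX with h2 | h2
    · exact mem_union_left _ (mem_filter.2 ⟨hX, h2⟩)
    · exact mem_union_right _ (mem_filter.2 ⟨hX, h2⟩)
  refine (card_le_card h1).trans ((card_union_le _ _).trans ?_)
  have h2 := non_at V k G hG hI x hx (h x hx)
  have h3 := non_at V k G hG hI y hy (h y hy)
  calc _ ≤ (k + 2) * (V.card - 2).choose k + (k + 2) * (V.card - 2).choose k := Nat.add_le_add h2 h3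
    _ = _ := by ring

end Fam

/-- A family which is not covered by two points. -/
theorem non3 (V : Finset ℕ) (j : ℕ) (G : Finset (Finset ℕ))
    (hG : ∀ X ∈ G, X ⊆ V ∧ X.card = j + 3) (hV : V.Nonempty)
    (hI : ∀ X ∈ G, ∀ Y ∈ G, ¬ Disjoint X Y) (h : ∀ x ∈ V, ∀ y ∈ V, ∃ X ∈ G, x ∉ X ∧ y ∉ X) :
    G.card ≤ (j + 3) * ((j + 3) * ((j + 3) * (V.card - 3).choose j)) := by
  have hpair : ∀ x ∈ V, ∀ y ∈ V, x ≠ y → (G.filter (fun X => x ∈ X ∧ y ∈ X)).card ≤
      (j + 3) * (V.card - 3).choose j := by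
    intro x hx y hy hxy
    obtain ⟨U, hU, hxU, hyU⟩ := h x hx y hy
    have h1 : G.filter (fun X => x ∈ X ∧ y ∈ X) ⊆ U.biUnion fun z =>
        (V.powersetCard (j + 3)).filter (fun X => x ∈ X ∧ y ∈ X ∧ z ∈ X) := by
      intro X hX
      obtain ⟨h1, h2, h3⟩ := mem_filter.1 hX
      obtain ⟨z, hz1, hz2⟩ := Finset.not_disjoint_iff.1 (hI X h1 U hU)
      exact mem_biUnion.2 ⟨z, hz2, mem_filter.2 ⟨mem_powersetCard.2 (hG X h1), h2, h3, hz1⟩⟩
    refine (card_le_card h1).trans (card_biUnion_le.trans ?_)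
    have h2 : ∀ z ∈ U, ((V.powersetCard (j + 3)).filter
        (fun X => x ∈ X ∧ y ∈ X ∧ z ∈ X)).card ≤ (V.card - 3).choose j := by
      intro z hz
      exact three V x y z hx hy ((hG U hU).1 hz) hxy (fun h => hxU (h ▸ hz))
        (fun h => hyU (h ▸ hz)) j
    refine (sum_le_sum h2).trans (le_of_eq ?_)
    rw [sum_const, (hG U hU).2, smul_eq_mul]
  have hat : ∀ x ∈ V, (G.filter (fun X => x ∈ X)).card ≤
      (j + 3) * ((j + 3) * (V.card - 3).choose j) := by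
    intro x hx
    obtain ⟨T, hT, hxT, _⟩ := h x hx x hx
    have h1 : G.filter (fun X => x ∈ X) ⊆ T.biUnion fun y =>
        G.filter (fun X => x ∈ X ∧ y ∈ X) := by
      intro X hX
      obtain ⟨h1, h2⟩ := mem_filter.1 hX
      obtain ⟨y, hy1, hy2⟩ := Finset.not_disjoint_iff.1 (hI X h1 T hT)
      exact mem_biUnion.2 ⟨y, hy2, mem_filter.2 ⟨h1, h2, hy1⟩⟩
    refine (card_le_card h1).trans (card_biUnion_le.trans ?_)
    refine (sum_le_sum fun y hy => hpair x hx y ((hG T hT).1 hy) fun h => hxT (h ▸ hy)).trans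
      (le_of_eq ?_)
    rw [sum_const, (hG T hT).2, smul_eq_mul]
  obtain ⟨v, hv⟩ := hV
  obtain ⟨S, hS, _, _⟩ := h v hv v hv
  have h1 : G ⊆ S.biUnion fun x => G.filter (fun X => x ∈ X) := by
    intro X hX
    obtain ⟨y, hy1, hy2⟩ := Finset.not_disjoint_iff.1 (hI X hX S hS)
    exact mem_biUnion.2 ⟨y, hy2, mem_filter.2 ⟨hX, hy1⟩⟩
  refine (card_le_card h1).trans (card_biUnion_le.trans ?_)
  refine (sum_le_sum fun x hx => hat x ((hG S hS).1 hx)).trans (le_of_eq ?_)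
  rw [sum_const, (hG S hS).2, smul_eq_mul]

/-- The bound for nontrivial intersecting families. -/
theorem non (V : Finset ℕ) (j : ℕ) (G : Finset (Finset ℕ))
    (hG : ∀ X ∈ G, X ⊆ V ∧ X.card = j + 3) (hm : (j + 3) ^ 3 < 2 * V.card)
    (hI : ∀ X ∈ G, ∀ Y ∈ G, ¬ Disjoint X Y) (h : ∀ x ∈ V, ∃ X ∈ G, x ∉ X) :
    G.card ≤ 2 * (j + 3) * (V.card - 2).choose (j + 1) := by
  have hVn : V.Nonempty := card_pos.1 (by omega)
  by_cases hc : ∃ x ∈ V, ∃ y ∈ V, ∀ X ∈ G, x ∈ X ∨ y ∈ X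
  · obtain ⟨x, hx, y, hy, hxy⟩ := hc
    exact non2 V (j + 1) G hG hI h x y hx hy hxy
  · push Not at hc
    refine (non3 V j G hG hVn hI hc).trans ?_
    have e0 : 27 ≤ (j + 3) ^ 3 := by
      have := Nat.pow_le_pow_left (show 3 ≤ j + 3 by omega) 3
      simpa using this
    obtain ⟨p, hp⟩ : ∃ p, V.card = p + 3 := ⟨V.card - 3, by omega⟩
    rw [hp] at hm ⊢
    have e1 : (p + 1) * p.choose j = (p + 1).choose (j + 1) * (j + 1) := Nat.add_one_mul_choose_eq p j
    simp only [Nat.add_sub_cancel, show p + 3 - 2 = p + 1 from rfl]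
    have hp0 : 0 < p + 1 := by omega
    refine Nat.le_of_mul_le_mul_right ?_ hp0
    have e2 : (j + 3) ^ 2 * (j + 1) ≤ 2 * (p + 1) := by nlinarith
    calc (j + 3) * ((j + 3) * ((j + 3) * p.choose j)) * (p + 1)
        = (j + 3) ^ 3 * ((p + 1) * p.choose j) := by ring
      _ = (j + 3) * (p + 1).choose (j + 1) * ((j + 3) ^ 2 * (j + 1)) := by rw [e1]; ring
      _ ≤ (j + 3) * (p + 1).choose (j + 1) * (2 * (p + 1)) := Nat.mul_le_mul_left _ e2
      _ = _ := by ring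


theorem dc {n : ℕ} {V C : Finset ℕ} {F : ℕ → Finset (Finset ℕ)} {K : ℕ} (hS : Sy n V C F K)
    (P : Finset (Finset ℕ)) (h : P ⊆ V.powersetCard n) :
    K * P.card ≤ ∑ c ∈ C, ((F c).filter (fun X => X ∈ P)).card := by
  have h1 : ∑ _X ∈ P, K ≤ ∑ X ∈ P, (C.filter (fun c => X ∈ F c)).card := by
    apply sum_le_sum
    intro X hX
    have := mem_powersetCard.1 (h hX)
    exact hS.cov X this.1 this.2
  rw [sum_const, smul_eq_mul, mul_comm] at h1
  refine h1.trans (le_of_eq ?_)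
  have h2 : ∀ X ∈ P, (C.filter (fun c => X ∈ F c)).card = ∑ c ∈ C, if X ∈ F c then 1 else 0 := by
    intro X _
    rw [card_filter]
  rw [sum_congr rfl h2, sum_comm]
  apply sum_congr rfl
  intro c _
  rw [← card_filter]
  congr 1
  ext X
  simp only [mem_filter]
  exact And.comm

end Pool.Agent.Lib.MP_6805b2_co.FR
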