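import Pool.Agent.Lib.MP_6805b2_co.FR.Core

/-!
# Homomorphisms between Kneser graphs and systems of intersecting families
-/

namespace Pool.Agent.Lib.MP_6805b2_co.FR

open Finset

/-- The homomorphism of Q1 for the parameters `n, m, q`. -/
abbrev HomQ (n m q : ℕ) : Type :=
  SimpleGraph.fromRel
      (fun s t : {s : Finset (Fin m) // s.card = n} => Disjoint s.1 t.1) →g
    SimpleGraph.fromRel
      (fun s t : {s : Finset (Fin (q * m - 2 * (n - 1) - 1)) // s.card = (q - 1) * n + 1} =>
        Disjoint s.1 t.1)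

theorem cex_of_hom (n m q : ℕ) (hn : 1 ≤ n) (hm : 2 * n ≤ m) (hq : 1 ≤ q) (φ : HomQ n m q) :
    Cex n m q := by
  classical
  refine ⟨range m, range (q * m - 2 * (n - 1) - 1),
    fun c => ((univ : Finset {s : Finset (Fin m) // s.card = n}).filter
    (fun s => ∃ j ∈ (φ s).1, j.val = c)).image (fun s => s.1.map Fin.valEmbedding),
    card_range m, ?_, ?_, ?_, ?_⟩
  · rw [card_range]
    have : m ≤ q * m := Nat.le_mul_of_pos_left m hq
    omega
  · intro c _ X hX
    obtain ⟨s, _, rfl⟩ := Finset.mem_image.mp hX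
    refine ⟨?_, ?_⟩
    · intro x hx
      obtain ⟨i, _, rfl⟩ := Finset.mem_map.mp hx
      exact Finset.mem_range.mpr i.isLt
    · rw [Finset.card_map]
      exact s.2
  · intro c _ X hX Y hY hd
    obtain ⟨s, hs, rfl⟩ := Finset.mem_image.mp hX
    obtain ⟨t, ht, rfl⟩ := Finset.mem_image.mp hY
    obtain ⟨j, hj, hjc⟩ := (Finset.mem_filter.mp hs).2
    obtain ⟨j', hj', hjc'⟩ := (Finset.mem_filter.mp ht).2
    have hjj : j = j' := Fin.ext (by rw [hjc, hjc'])
    subst hjj
    have hd' : Disjoint s.1 t.1 := (Finset.disjoint_map Fin.valEmbedding).mp hd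
    have hne : s ≠ t := by
      intro h
      subst h
      have h1 : s.1 = ∅ := (Finset.disjoint_self_iff_empty s.1).mp hd'
      have h2 := s.2
      rw [h1, card_empty] at h2
      omega
    have hadj : (SimpleGraph.fromRel
          (fun s t : {s : Finset (Fin m) // s.card = n} => Disjoint s.1 t.1)).Adj s t := by
      rw [SimpleGraph.fromRel_adj]
      exact ⟨hne, Or.inl hd'⟩
    have h3 := φ.map_rel hadj
    have h4 := (SimpleGraph.fromRel_adj _ _ _).mp h3
    rcases h4.2 with h5 | h5
    · exact Finset.disjoint_left.mp h5 hj hj'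
    · exact Finset.disjoint_left.mp h5 hj' hj
  · intro X hX hXn
    have hmap : ((univ : Finset (Fin m)).filter (fun i => i.val ∈ X)).map Fin.valEmbedding = X := by
      ext x
      rw [Finset.mem_map]
      constructor
      · rintro ⟨i, hi, rfl⟩
        exact (Finset.mem_filter.mp hi).2
      · intro hx
        exact ⟨⟨x, Finset.mem_range.mp (hX hx)⟩,
          Finset.mem_filter.mpr ⟨Finset.mem_univ _, hx⟩, rfl⟩
    have hcard : ((univ : Finset (Fin m)).filter (fun i => i.val ∈ X)).card = n := by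
      rw [← hXn]
      conv_rhs => rw [← hmap]
      rw [Finset.card_map]
    have hsub : ((φ ⟨_, hcard⟩).1.map Fin.valEmbedding) ⊆
        (range (q * m - 2 * (n - 1) - 1)).filter (fun c => X ∈
          ((univ : Finset {s : Finset (Fin m) // s.card = n}).filter
          (fun s => ∃ j ∈ (φ s).1, j.val = c)).image (fun s => s.1.map Fin.valEmbedding)) := by
      intro c hc
      obtain ⟨j, hj, rfl⟩ := Finset.mem_map.mp hc
      refine Finset.mem_filter.mpr ⟨Finset.mem_range.mpr j.isLt, ?_⟩
      refine Finset.mem_image.mpr ⟨⟨_, hcard⟩, Finset.mem_filter.mpr ⟨Finset.mem_univ _, j, hj,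
        rfl⟩, hmap⟩
    have h1 := Finset.card_le_card hsub
    rw [Finset.card_map, (φ ⟨_, hcard⟩).2] at h1
    exact h1

theorem hom_of_cex (n m q : ℕ) (hn : 1 ≤ n) (h : Cex n m q) : Nonempty (HomQ n m q) := by
  classical
  obtain ⟨V, C, F, hV, hC, hS⟩ := h
  -- the points
  let e : Fin m ≃ V := (finCongr hV.symm).trans V.equivFin.symm
  let pt : Fin m ↪ ℕ := ⟨fun i => (e i : ℕ), fun i j hij => e.injective (Subtype.ext hij)⟩
  -- the colours
  have hCN : C.card ≤ q * m - 2 * (n - 1) - 1 := by omega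
  let g : C ↪ Fin (q * m - 2 * (n - 1) - 1) :=
    ⟨fun c => Fin.castLE hCN (C.equivFin c), fun a b hab => by
      have := Fin.castLE_injective hCN hab
      exact C.equivFin.injective this⟩
  have hsub : ∀ s : {s : Finset (Fin m) // s.card = n}, s.1.map pt ⊆ V ∧ (s.1.map pt).card = n := by
    intro s
    refine ⟨fun x hx => ?_, by rw [card_map]; exact s.2⟩
    obtain ⟨i, _, rfl⟩ := mem_map.1 hx
    exact (e i).2
  have hex : ∀ s : {s : Finset (Fin m) // s.card = n}, ∃ D : Finset ℕ,
      D ⊆ C.filter (fun c => s.1.map pt ∈ F c) ∧ D.card = (q - 1) * n + 1 := fun s =>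
    exists_subset_card_eq (hS.cov _ (hsub s).1 (hsub s).2)
  choose D hD hDn using hex
  have hcd : ∀ s, ((D s).subtype (fun c => c ∈ C)).card = (q - 1) * n + 1 := by
    intro s
    rw [card_subtype, ← hDn s]
    congr 1
    refine filter_true_of_mem fun c hc => (mem_filter.1 (hD s hc)).1
  let f : {s : Finset (Fin m) // s.card = n} →
      {s : Finset (Fin (q * m - 2 * (n - 1) - 1)) // s.card = (q - 1) * n + 1} := fun s =>
    ⟨((D s).subtype (fun c => c ∈ C)).map g, by rw [card_map]; exact hcd s⟩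
  have key : ∀ s t : {s : Finset (Fin m) // s.card = n}, Disjoint s.1 t.1 →
      Disjoint (f s).1 (f t).1 := by
    intro s t hst
    rw [Finset.disjoint_left]
    intro j hj hj'
    obtain ⟨c, hc, rfl⟩ := mem_map.1 hj
    obtain ⟨c', hc', hcc⟩ := mem_map.1 hj'
    have hcc' : c' = c := g.injective hcc
    subst hcc'
    have h1 := mem_filter.1 (hD s (mem_subtype.1 hc))
    have h2 := mem_filter.1 (hD t (mem_subtype.1 hc'))
    exact hS.int _ h1.1 _ h1.2 _ h2.2 ((Finset.disjoint_map pt).2 hst)
  have hne : ∀ s t : {s : Finset (Fin m) // s.card = n}, Disjoint (f s).1 (f t).1 →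
      f s ≠ f t := by
    intro s t hst heq
    rw [heq, Finset.disjoint_self_iff_empty] at hst
    have := (f t).2
    rw [hst, card_empty] at this
    omega
  refine ⟨⟨f, ?_⟩⟩
  intro s t hst
  rw [SimpleGraph.fromRel_adj] at hst ⊢
  rcases hst.2 with h | h
  · exact ⟨hne s t (key s t h), Or.inl (key s t h)⟩
  · exact ⟨(hne t s (key t s h)).symm, Or.inr (key t s h)⟩

end Pool.Agent.Lib.MP_6805b2_co.FR
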