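import Pool.Agent.Lib.MP_6805b2_co.FR.Step

/-!
# The reduction to small parameters
-/

namespace Pool.Agent.Lib.MP_6805b2_co.FR

/-- The inequalities of `tri` bound `m`. -/
theorem bound_m (k m q τ β : ℕ) (hq : 1 ≤ q) (h1 : τ + β + 2 * (k + 2) ≤ q * m + 1)
    (h2 : τ ≤ (q - 1) * m)
    (h3 : ((q - 1) * (k + 2) + 1) * (m * (m - 1)) ≤
      (k + 2) * τ * (m - 1) + 2 * (k + 2) ^ 2 * (k + 1) * β) :
    m ≤ 2 * (k + 2) ^ 2 * (k + 1) := by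
  by_contra hcon
  push Not at hcon
  obtain ⟨Q, rfl⟩ : ∃ Q, q = Q + 1 := ⟨q - 1, by omega⟩
  obtain ⟨p, rfl⟩ : ∃ p, m = p + 1 := ⟨m - 1, by omega⟩
  rw [Nat.add_sub_cancel] at h2 h3
  rw [Nat.add_sub_cancel] at h3
  set c : ℕ := 2 * (k + 2) ^ 2 * (k + 1) with hc
  have hc0 : 0 < c := by positivity
  have hpc : c ≤ p := by omega
  zify at h1 h2 h3 hpc hc0
  have a1 : (c : ℤ) * β ≤ c * ((Q + 1) * (p + 1) + 1 - 2 * (k + 2) - τ) :=
    mul_le_mul_of_nonneg_left (by linarith) hc0.le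
  have a2 : (0 : ℤ) ≤ ((k + 2) * p - c) * (Q * (p + 1) - τ) := by
    refine mul_nonneg ?_ (by linarith)
    nlinarith [mul_nonneg (Int.natCast_nonneg k) (Int.natCast_nonneg p), Int.natCast_nonneg p]
  have a3 : ((p : ℤ) + 1) * p ≤ c * (p + 2 - 2 * (k + 2)) := by nlinarith
  have a4 : (0 : ℤ) ≤ c * k := mul_nonneg hc0.le (Int.natCast_nonneg k)
  nlinarith [mul_nonneg (show (0 : ℤ) ≤ p - c by linarith) (show (0 : ℤ) ≤ p by linarith)]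

/-- The inequalities of `tri` bound `q` for large `m`. -/
theorem bound_q (k m q τ β : ℕ) (hq : 1 ≤ q) (hm : 2 * (k + 2) ≤ m)
    (hm2 : 4 * (k + 2) * (k + 1) < m)
    (h1 : τ + β + 2 * (k + 2) ≤ q * m + 1)
    (h3 : ((q - 1) * (k + 2) + 1) * (m * (m - 1)) ≤
      (k + 2) * τ * (m - 1) + 2 * (k + 2) ^ 2 * (k + 1) * β)
    (h4 : ((q - 1) * (k + 2) + 1) * (m - 1) ≤ (k + 1) * (τ + (k + 2) * β)) :
    q ≤ 4 * (k + 2) ^ 2 := by
  obtain ⟨Q, rfl⟩ : ∃ Q, q = Q + 1 := ⟨q - 1, by omega⟩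
  obtain ⟨p, rfl⟩ : ∃ p, m = p + 1 := ⟨m - 1, by omega⟩
  rw [Nat.add_sub_cancel, Nat.add_sub_cancel] at h3 h4
  have hp0 : 0 < p := by omega
  zify at h1 h3 h4 hm hm2 hp0 ⊢
  have hk : (0 : ℤ) ≤ k := Int.natCast_nonneg k
  have hβ : (0 : ℤ) ≤ β := Int.natCast_nonneg β
  have hQ : (0 : ℤ) ≤ Q := Int.natCast_nonneg Q
  -- bound for `β`
  have a1 : ((k : ℤ) + 2) * β * p ≤ 2 * (p * ((k + 1) * (p + 1))) := by
    have b1 : 2 * (2 * ((k : ℤ) + 2) ^ 2 * (k + 1)) ≤ (k + 2) * p := by nlinarith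
    have b2 := mul_le_mul_of_nonneg_right b1 hβ
    have b3 : ((k : ℤ) + 2) * p * (τ + β + 2 * (k + 2)) ≤ (k + 2) * p * ((Q + 1) * (p + 1) + 1) :=
      mul_le_mul_of_nonneg_left h1 (by positivity)
    have b4 : (0 : ℤ) ≤ p * ((k + 2) * (2 * k + 3)) := by positivity
    nlinarith
  have a2 : ((k : ℤ) + 2) * β ≤ 2 * ((k + 1) * (p + 1)) := by
    refine le_of_mul_le_mul_right ?_ hp0
    linarith
  have a3 : (β : ℤ) ≤ 2 * (p + 1) := by nlinarith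
  -- the inequality at the point without a star class
  have a4 : ((Q : ℤ) + 1) * (p + 1 - (k + 2)) ≤ (k + 1) ^ 2 * β + (k + 1) * (p + 1 - 2 * (k + 2)) := by
    have b1 := mul_le_mul_of_nonneg_left h1 (show (0 : ℤ) ≤ k + 1 by linarith)
    nlinarith
  have a5 : ((k : ℤ) + 1) ^ 2 * β ≤ (k + 1) ^ 2 * (2 * (p + 1)) :=
    mul_le_mul_of_nonneg_left a3 (by positivity)
  have a6 : ((Q : ℤ) + 1) * (p + 1 - (k + 2)) ≤ (k + 1) * (2 * k + 3) * (p + 1) := by nlinarith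
  have a7 : (0 : ℤ) < p + 1 - (k + 2) := by linarith
  have a8 : ((p : ℤ) + 1) ≤ 2 * (p + 1 - (k + 2)) := by linarith
  have a9 : ((Q : ℤ) + 1) * (p + 1 - (k + 2)) ≤
      (2 * ((k + 1) * (2 * k + 3))) * (p + 1 - (k + 2)) := by
    have b1 := mul_le_mul_of_nonneg_left a8 (show (0 : ℤ) ≤ (k + 1) * (2 * k + 3) by positivity)
    linarith
  have a10 := le_of_mul_le_mul_right a9 a7
  nlinarith

theorem red (k : ℕ) (hk : 1 ≤ k) : ∀ s m q : ℕ, m + q ≤ s → 2 * (k + 2) ≤ m → 1 ≤ q →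
    Cex (k + 2) m q → ∃ m' q', m' ≤ m ∧ q' ≤ q ∧ m' ≤ 2 * (k + 2) ^ 2 * (k + 1) ∧
      (m' ≤ 4 * (k + 2) ^ 2 ∨ 2 * m' ≤ (k + 2) ^ 3 ∨ q' ≤ 4 * (k + 2) ^ 2) ∧
      2 * (k + 2) ≤ m' ∧ 1 ≤ q' ∧ Cex (k + 2) m' q' := by
  intro s
  induction s with
  | zero => intro m q h hm; omega
  | succ s ih =>
    intro m q h hm hq hc
    have e1 : (k + 2) ^ 3 < 2 * (2 * (k + 2) ^ 2 * (k + 1)) := by
      have : (k + 2) ^ 3 + (k + 2) ^ 2 * (3 * k + 2) = 2 * (2 * (k + 2) ^ 2 * (k + 1)) := by ring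
      have h2 : 0 < (k + 2) ^ 2 * (3 * k + 2) := by positivity
      omega
    have e2 : 2 * (k + 2) ≤ 4 * (k + 2) ^ 2 := by nlinarith
    have e3 : 2 * (k + 2) ≤ 2 * (k + 2) ^ 2 * (k + 1) := by
      have h2 : 2 * (k + 2) * 1 ≤ 2 * (k + 2) * ((k + 2) * (k + 1)) :=
        Nat.mul_le_mul_left _ (by nlinarith)
      calc 2 * (k + 2) = 2 * (k + 2) * 1 := by ring
        _ ≤ _ := h2
        _ = _ := by ring
    have e4 : 16 ≤ 4 * (k + 2) ^ 2 := by nlinarith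
    have e5 : 4 * (k + 2) * (k + 1) ≤ 4 * (k + 2) ^ 2 := by nlinarith
    by_cases hgood : m ≤ 2 * (k + 2) ^ 2 * (k + 1) ∧
        (m ≤ 4 * (k + 2) ^ 2 ∨ 2 * m ≤ (k + 2) ^ 3 ∨ q ≤ 4 * (k + 2) ^ 2)
    · exact ⟨m, q, le_rfl, le_rfl, hgood.1, hgood.2, hm, hq, hc⟩
    · have hm1 : 2 * (k + 2) ≤ m - 1 ∧ (k + 2) ^ 3 < 2 * m := by
        by_cases hb : m ≤ 2 * (k + 2) ^ 2 * (k + 1)
        · have h1 : ¬ (m ≤ 4 * (k + 2) ^ 2) := fun h' => hgood ⟨hb, Or.inl h'⟩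
          have h2 : ¬ (2 * m ≤ (k + 2) ^ 3) := fun h' => hgood ⟨hb, Or.inr (Or.inl h')⟩
          omega
        · omega
      rcases tri k m q hk hm hm1.2 hq hc with h1 | ⟨τ, β, h1, h2, h3, h4⟩
      · obtain ⟨m', q', g1, g2, g3, g4, g5, g6, g7⟩ := ih (m - 1) q (by omega) hm1.1 hq h1
        exact ⟨m', q', by omega, g2, g3, g4, g5, g6, g7⟩
      · have hb := bound_m k m q τ β hq h1 h2 h3
        have hb2 : 4 * (k + 2) ^ 2 < m := by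
          by_contra hcon
          exact hgood ⟨hb, Or.inl (by omega)⟩
        have hb3 : 4 * (k + 2) ^ 2 < q := by
          by_contra hcon
          exact hgood ⟨hb, Or.inr (Or.inr (by omega))⟩
        rcases h4 (by omega) with h5 | h5
        · obtain ⟨m', q', g1, g2, g3, g4, g5, g6, g7⟩ := ih m (q - 1) (by omega) hm (by omega) h5
          exact ⟨m', q', g1, by omega, g3, g4, g5, g6, g7⟩
        · have := bound_q k m q τ β hq hm (by omega) h1 h3 h5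
          omega

end Pool.Agent.Lib.MP_6805b2_co.FR
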