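import Pool.Agent.Lib.MP_6805b2_co.FR.Core

/-!
# The reduction step

Let there be a counterexample. If some point is the chosen centre of at least `q` star classes, it can be
removed; if every point is the chosen centre of a star class, one class at every point can be removed.
Otherwise double counting gives inequalities for the numbers `τ` of the star classes and `β` of the others.
-/

namespace Pool.Agent.Lib.MP_6805b2_co.FR

open Finset

theorem removeA {n : ℕ} {V C : Finset ℕ} {F : ℕ → Finset (Finset ℕ)} {K : ℕ} (hS : Sy n V C F K)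
    (x : ℕ) (A : Finset ℕ) (hA : ∀ c ∈ A, ∀ X ∈ F c, x ∈ X) :
    Sy n (V.erase x) (C \ A) (fun c => (F c).filter (fun X => x ∉ X)) K := by
  refine ⟨?_, ?_, ?_⟩
  · intro c hc X hX
    obtain ⟨h1, h2⟩ := mem_filter.1 hX
    obtain ⟨h3, h4⟩ := hS.sub c (mem_sdiff.1 hc).1 X h1
    exact ⟨fun y hy => mem_erase.2 ⟨fun h => h2 (h ▸ hy), h3 hy⟩, h4⟩
  · intro c hc X hX Y hY
    exact hS.int c (mem_sdiff.1 hc).1 X (mem_filter.1 hX).1 Y (mem_filter.1 hY).1
  · intro X hX hn
    have hx : x ∉ X := fun h => (notMem_erase x V) (hX h)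
    refine (hS.cov X (hX.trans (erase_subset _ _)) hn).trans (card_le_card fun c hc => ?_)
    obtain ⟨h1, h2⟩ := mem_filter.1 hc
    exact mem_filter.2 ⟨mem_sdiff.2 ⟨h1, fun h => hx (hA c h X h2)⟩, mem_filter.2 ⟨h2, hx⟩⟩

theorem removeC {n : ℕ} {V C : Finset ℕ} {F : ℕ → Finset (Finset ℕ)} {K : ℕ} (hS : Sy n V C F K)
    (g : ℕ → ℕ) (hg : ∀ x ∈ V, ∀ X ∈ F (g x), x ∈ X) :
    Sy n V (C \ V.image g) F (K - n) := by
  refine ⟨fun c hc => hS.sub c (mem_sdiff.1 hc).1, fun c hc => hS.int c (mem_sdiff.1 hc).1, ?_⟩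
  intro X hX hn
  have h1 := hS.cov X hX hn
  have h2 : C.filter (fun c => X ∈ F c) ⊆
      (C \ V.image g).filter (fun c => X ∈ F c) ∪ X.image g := by
    intro c hc
    obtain ⟨h1, h2⟩ := mem_filter.1 hc
    by_cases h3 : c ∈ V.image g
    · obtain ⟨x, hx, rfl⟩ := mem_image.1 h3
      exact mem_union_right _ (mem_image.2 ⟨x, hg x hx X h2, rfl⟩)
    · exact mem_union_left _ (mem_filter.2 ⟨mem_sdiff.2 ⟨h1, h3⟩, h2⟩)
  have h3 := (card_le_card h2).trans (card_union_le _ _)
  have h4 : (X.image g).card ≤ n := card_image_le.trans hn.le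
  omega

/-- A centre is chosen for every class that has one. -/
theorem exists_ctr (V : Finset ℕ) (F : ℕ → Finset (Finset ℕ)) : ∃ ctr : ℕ → ℕ, ∀ c,
    (∃ x ∈ V, ∀ X ∈ F c, x ∈ X) → ctr c ∈ V ∧ ∀ X ∈ F c, ctr c ∈ X := by
  classical
  refine ⟨fun c => if h : ∃ x ∈ V, ∀ X ∈ F c, x ∈ X then h.choose else 0, fun c h => ?_⟩
  simp only [dif_pos h]
  exact h.choose_spec

private theorem ar1 (k m : ℕ) (hm : k + 2 ≤ m) (K τ β : ℕ)
    (h : K * m.choose (k + 2) ≤ τ * (m - 1).choose (k + 1) +
      β * (2 * (k + 2) * (m - 2).choose k)) :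
    K * (m * (m - 1)) ≤ (k + 2) * τ * (m - 1) + 2 * (k + 2) ^ 2 * (k + 1) * β := by
  obtain ⟨p, rfl⟩ : ∃ p, m = p + 2 := ⟨m - 2, by omega⟩
  have e1 : (p + 1) * p.choose k = (p + 1).choose (k + 1) * (k + 1) := Nat.add_one_mul_choose_eq p k
  have e2 : (p + 2) * (p + 1).choose (k + 1) = (p + 2).choose (k + 2) * (k + 2) :=
    Nat.add_one_mul_choose_eq (p + 1) (k + 1)
  have ht : 0 < p.choose k := Nat.choose_pos (by omega)
  simp only [Nat.add_sub_cancel, show p + 2 - 1 = p + 1 from rfl] at h ⊢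
  refine Nat.le_of_mul_le_mul_right ?_ ht
  have h1 := Nat.mul_le_mul_right ((k + 2) * (k + 1)) h
  calc K * ((p + 2) * (p + 1)) * p.choose k
      = K * (p + 2) * ((p + 1) * p.choose k) := by ring
    _ = K * (k + 1) * ((p + 2) * (p + 1).choose (k + 1)) := by rw [e1]; ring
    _ = K * (p + 2).choose (k + 2) * ((k + 2) * (k + 1)) := by rw [e2]; ring
    _ ≤ _ := h1
    _ = (k + 2) * τ * ((p + 1).choose (k + 1) * (k + 1)) +
        2 * (k + 2) ^ 2 * (k + 1) * β * p.choose k := by ring
    _ = ((k + 2) * τ * (p + 1) + 2 * (k + 2) ^ 2 * (k + 1) * β) * p.choose k := by rw [← e1]; ring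

private theorem ar2 (k m : ℕ) (hm : k + 2 ≤ m) (K τ β : ℕ)
    (h : K * (m - 1).choose (k + 1) ≤ τ * (m - 2).choose k + β * ((k + 2) * (m - 2).choose k)) :
    K * (m - 1) ≤ (k + 1) * (τ + (k + 2) * β) := by
  obtain ⟨p, rfl⟩ : ∃ p, m = p + 2 := ⟨m - 2, by omega⟩
  have e1 : (p + 1) * p.choose k = (p + 1).choose (k + 1) * (k + 1) := Nat.add_one_mul_choose_eq p k
  have ht : 0 < p.choose k := Nat.choose_pos (by omega)
  simp only [Nat.add_sub_cancel, show p + 2 - 1 = p + 1 from rfl] at h ⊢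
  refine Nat.le_of_mul_le_mul_right ?_ ht
  have h1 := Nat.mul_le_mul_right (k + 1) h
  calc K * (p + 1) * p.choose k = K * (p + 1).choose (k + 1) * (k + 1) := by
        rw [mul_assoc, e1]; ring
    _ ≤ _ := h1
    _ = (k + 1) * (τ + (k + 2) * β) * p.choose k := by ring

theorem tri (k m q : ℕ) (hk : 1 ≤ k) (hm : 2 * (k + 2) ≤ m) (hm3 : (k + 2) ^ 3 < 2 * m)
    (hq : 1 ≤ q) (h : Cex (k + 2) m q) :
    Cex (k + 2) (m - 1) q ∨ ∃ τ β : ℕ, τ + β + 2 * (k + 2) ≤ q * m + 1 ∧ τ ≤ (q - 1) * m ∧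
      ((q - 1) * (k + 2) + 1) * (m * (m - 1)) ≤
        (k + 2) * τ * (m - 1) + 2 * (k + 2) ^ 2 * (k + 1) * β ∧
      (2 ≤ q → Cex (k + 2) m (q - 1) ∨
        ((q - 1) * (k + 2) + 1) * (m - 1) ≤ (k + 1) * (τ + (k + 2) * β)) := by
  classical
  obtain ⟨V, C, F, hV, hC, hS⟩ := h
  obtain ⟨ctr, hctr⟩ := exists_ctr V F
  set T := C.filter (fun c => ∃ x ∈ V, ∀ X ∈ F c, x ∈ X) with hT
  set B := C.filter (fun c => ¬ ∃ x ∈ V, ∀ X ∈ F c, x ∈ X) with hB
  have hVn : V.Nonempty := card_pos.1 (by omega)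
  have hTB : T.card + B.card = C.card := card_filter_add_card_filter_not _
  have hTC : ∀ c ∈ T, c ∈ C ∧ ctr c ∈ V ∧ ∀ X ∈ F c, ctr c ∈ X := by
    intro c hc
    obtain ⟨h1, h2⟩ := mem_filter.1 hc
    exact ⟨h1, hctr c h2⟩
  have hBC : ∀ c ∈ B, c ∈ C ∧ ∀ x ∈ V, ∃ X ∈ F c, x ∉ X := by
    intro c hc
    obtain ⟨h1, h2⟩ := mem_filter.1 hc
    refine ⟨h1, fun x hx => ?_⟩
    by_contra hcon
    push Not at hcon
    exact h2 ⟨x, hx, hcon⟩
  let A : ℕ → Finset ℕ := fun x => T.filter (fun c => ctr c = x)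
  have hAC : ∀ x, A x ⊆ C := fun x c hc => (hTC c (mem_filter.1 hc).1).1
  have hAx : ∀ x, ∀ c ∈ A x, ∀ X ∈ F c, x ∈ X := by
    intro x c hc X hX
    obtain ⟨h1, h2⟩ := mem_filter.1 hc
    rw [← h2]
    exact (hTC c h1).2.2 X hX
  by_cases hA : ∃ x ∈ V, q ≤ (A x).card
  · left
    obtain ⟨x, hx, hqx⟩ := hA
    refine ⟨V.erase x, C \ A x, _, ?_, ?_, removeA hS x (A x) (hAx x)⟩
    · rw [card_erase_of_mem hx, hV]
    · rw [card_sdiff_of_subset (hAC x)]
      have h1 := card_le_card (hAC x)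
      obtain ⟨p, rfl⟩ : ∃ p, m = p + 1 := ⟨m - 1, by omega⟩
      rw [Nat.add_sub_cancel]
      have e : q * (p + 1) = q * p + q := by ring
      rw [e] at hC
      omega
  · right
    push Not at hA
    refine ⟨T.card, B.card, ?_, ?_, ?_, ?_⟩
    · rw [hTB]
      exact hC
    · rw [card_eq_sum_card_fiberwise (f := ctr) (t := V) (fun c hc => (hTC c hc).2.1)]
      have h1 : ∀ x ∈ V, (T.filter (fun c => ctr c = x)).card ≤ q - 1 := by
        intro x hx
        have := hA x hx
        change (T.filter (fun c => ctr c = x)).card < q at this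
        omega
      refine (sum_le_sum h1).trans (le_of_eq ?_)
      rw [sum_const, hV, smul_eq_mul, mul_comm]
    · refine ar1 k m (by omega) _ _ _ ?_
      have h1 := dc hS (V.powersetCard (k + 2)) (Subset.refl _)
      rw [card_powersetCard, hV] at h1
      refine h1.trans ?_
      have h2 : ∑ c ∈ C, ((F c).filter (fun X => X ∈ V.powersetCard (k + 2))).card ≤
          ∑ c ∈ C, (F c).card := sum_le_sum fun c _ => card_filter_le _ _
      refine h2.trans ?_
      rw [← sum_filter_add_sum_filter_not C (fun c => ∃ x ∈ V, ∀ X ∈ F c, x ∈ X)]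
      refine Nat.add_le_add ?_ ?_
      · refine (sum_le_card_nsmul T _ ((m - 1).choose (k + 1)) fun c hc => ?_).trans
          (le_of_eq (smul_eq_mul _ _))
        rw [← hV]
        exact star V k (F c) (hS.sub c (hTC c hc).1) (ctr c) (hTC c hc).2.1 (hTC c hc).2.2
      · refine (sum_le_card_nsmul B _ (2 * (k + 2) * (m - 2).choose k)
          fun c hc => ?_).trans (le_of_eq (smul_eq_mul _ _))
        obtain ⟨j, rfl⟩ : ∃ j, k = j + 1 := ⟨k - 1, by omega⟩
        rw [← hV] at hm3 ⊢
        exact non V j (F c) (hS.sub c (hBC c hc).1) hm3 (hS.int c (hBC c hc).1) (hBC c hc).2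
    · intro hq2
      by_cases hne : ∀ x ∈ V, (A x).Nonempty
      · left
        have h1 : ∀ x, ∃ c, x ∈ V → c ∈ A x := by
          intro x
          by_cases hx : x ∈ V
          · obtain ⟨c, hc⟩ := hne x hx
            exact ⟨c, fun _ => hc⟩
          · exact ⟨0, fun h => absurd h hx⟩
        choose g hg using h1
        have h2 := removeC hS g (fun x hx => hAx x (g x) (hg x hx))
        refine ⟨V, C \ V.image g, F, hV, ?_, ?_⟩
        · have h3 : V.image g ⊆ C := by
            intro c hc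
            obtain ⟨x, hx, rfl⟩ := mem_image.1 hc
            exact hAC x (hg x hx)
          have h4 : (V.image g).card = m := by
            rw [← hV]
            refine card_image_of_injOn ?_
            intro x hx y hy hxy
            have e1 := (mem_filter.1 (hg x hx)).2
            have e2 := (mem_filter.1 (hg y hy)).2
            rw [← e1, ← e2]
            exact congrArg ctr hxy
          rw [card_sdiff_of_subset h3, h4]
          have h5 := card_le_card h3
          rw [h4] at h5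
          obtain ⟨p, rfl⟩ : ∃ p, q = p + 1 := ⟨q - 1, by omega⟩
          rw [Nat.add_sub_cancel]
          have e : (p + 1) * m = p * m + m := by ring
          rw [e] at hC
          omega
        · have h3 : (q - 1) * (k + 2) + 1 - (k + 2) = (q - 1 - 1) * (k + 2) + 1 := by
            obtain ⟨p, rfl⟩ : ∃ p, q = p + 2 := ⟨q - 2, by omega⟩
            have e1 : p + 2 - 1 = p + 1 := rfl
            have e2 : p + 1 - 1 = p := rfl
            rw [e1, e2, add_mul, one_mul]
            omega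
          rw [← h3]
          exact h2
      · right
        push Not at hne
        obtain ⟨x, hx, hxe⟩ := hne
        refine ar2 k m (by omega) _ _ _ ?_
        have h1 := dc hS ((V.powersetCard (k + 2)).filter (fun X => x ∈ X)) (filter_subset _ _)
        rw [one V x hx (k + 1), hV] at h1
        refine h1.trans ?_
        have h2 : ∑ c ∈ C, ((F c).filter
            (fun X => X ∈ (V.powersetCard (k + 2)).filter (fun X => x ∈ X))).card ≤
            ∑ c ∈ C, ((F c).filter (fun X => x ∈ X)).card := by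
          refine sum_le_sum fun c _ => card_le_card fun X hX => ?_
          obtain ⟨h3, h4⟩ := mem_filter.1 hX
          exact mem_filter.2 ⟨h3, (mem_filter.1 h4).2⟩
        refine h2.trans ?_
        rw [← sum_filter_add_sum_filter_not C (fun c => ∃ x ∈ V, ∀ X ∈ F c, x ∈ X)]
        refine Nat.add_le_add ?_ ?_
        · refine (sum_le_card_nsmul T _ ((m - 2).choose k) fun c hc => ?_).trans
            (le_of_eq (smul_eq_mul _ _))
          rw [← hV]
          refine star_at V k (F c) (hS.sub c (hTC c hc).1) x (ctr c) hx ?_ (hTC c hc).2.1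
            (hTC c hc).2.2
          intro hxc
          have : c ∈ A x := mem_filter.2 ⟨hc, hxc.symm⟩
          rw [hxe] at this
          exact absurd this (notMem_empty _)
        · refine (sum_le_card_nsmul B _ ((k + 2) * (m - 2).choose k)
            fun c hc => ?_).trans (le_of_eq (smul_eq_mul _ _))
          rw [← hV]
          exact non_at V k (F c) (hS.sub c (hBC c hc).1) (hS.int c (hBC c hc).1) x hx
            ((hBC c hc).2 x hx)

end Pool.Agent.Lib.MP_6805b2_co.FR
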